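import Pool.Agent.J4H35.CB.B

/-!
# The grouping lemma for many small exponents: total size `2.0713`, small items `0.0001` and `0.002`
-/

set_option autoImplicit false
set_option linter.unusedSectionVars false

namespace Pool.Agent.J4H32.HT

open Finset Pool.Agent.Y823.Z Pool.Agent.J4H35.CB

variable {ι : Type} [Fintype ι] [DecidableEq ι]

/-- filling up with small items, two levels -/
theorem pick (ω : ι → ℝ) (C S S' : Finset ι) (hSC : S ⊆ C) (hSC' : S' ⊆ C) (h0 : ∀ z ∈ C, 0 ≤ ω z) (g hi : ℝ)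
    (hhi : 0 ≤ hi) (hsm : ∀ z ∈ S, ω z ≤ g) (hmid : ∀ z ∈ S', ω z ≤ g + ∑ z ∈ S, ω z)
    (hbig : ∀ z ∈ C, ω z ≤ g + ∑ z ∈ S', ω z) :
    ∃ A ⊆ C, ∑ z ∈ A, ω z ≤ hi ∧ (A = C ∨ hi - g ≤ ∑ z ∈ A, ω z) := by
  obtain ⟨A, hAC, hAc, hA⟩ := greedy ω hi hhi C h0
  refine ⟨A, hAC, hAc, ?_⟩
  rcases hA with hA | ⟨r, hrC, hrA, hr1, hr2⟩
  · exact Or.inl hA
  right
  by_contra hcon
  push Not at hcon
  have h1 : ∑ z ∈ A, ω z = ∑ z ∈ A.filter (fun z => ω r ≤ ω z), ω z +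
      ∑ z ∈ A.filter (fun z => ¬ ω r ≤ ω z), ω z := (sum_filter_add_sum_filter_not _ _ _).symm
  have h2 : 0 ≤ ∑ z ∈ A.filter (fun z => ¬ ω r ≤ ω z), ω z :=
    sum_nonneg fun z hz => h0 z (hAC (mem_filter.1 hz).1)
  have h3 : g < ω r := by linarith
  have hsub : ∀ T : Finset ι, T ⊆ C → (∀ z ∈ T, ω z < ω r) →
      ∑ z ∈ T, ω z ≤ ∑ z ∈ A.filter (fun z => ¬ ω r ≤ ω z), ω z := by
    intro T hT hlt
    refine sum_le_sum_of_subset_of_nonneg ?_ fun z hz _ => h0 z (hAC (mem_filter.1 hz).1)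
    intro z hz
    rw [mem_filter]
    exact ⟨hr2 z (hT hz) (hlt z hz), not_le.2 (hlt z hz)⟩
  have h4 := hsub S hSC fun z hz => (hsm z hz).trans_lt h3
  have h5 : g + ∑ z ∈ S, ω z < ω r := by linarith
  have h6 := hsub S' hSC' fun z hz => (hmid z hz).trans_lt h5
  have := hbig r hrC
  linarith

/-- The data of the grouping lemma. -/
structure Dat4 (t X : ι → ℝ) (n : ℝ) : Prop where
  h0 : ∀ z, 0 ≤ X z
  h1 : ∀ z, X z ≤ t z
  h2 : ∀ z, t z ≤ 0.45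
  hT : ∑ z, t z ≤ 2.0713
  hX : 2 - 0.000001 ≤ ∑ z, X z
  hn1 : 5 / 4 - 0.000001 ≤ n
  hn2 : n ≤ 2 + 0.000001
  s0 : 0.088 ≤ ∑ z ∈ univ.filter (fun z => t z ≤ 0.0001), t z
  s1 : 0.524 ≤ ∑ z ∈ univ.filter (fun z => t z ≤ 0.002), t z

variable {t X : ι → ℝ} {n : ℝ}

theorem Dat4.le (D : Dat4 t X n) : ∑ z, X z ≤ 2.0713 := (sum_le_sum fun z _ => D.h1 z).trans D.hT

/-- the small items -/
theorem Dat4.small (D : Dat4 t X n) (x F : ℝ)
    (hF : F ≤ ∑ z ∈ univ.filter (fun z => t z ≤ x), t z) :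
    F - 2.0713 + ∑ z, X z ≤ ∑ z ∈ univ.filter (fun z => t z ≤ x), X z := by
  have h1 : ∑ z ∈ univ.filter (fun z => t z ≤ x), (t z - X z) ≤ ∑ z, (t z - X z) := by
    refine sum_le_sum_of_subset_of_nonneg (filter_subset _ _) fun z _ _ => ?_
    have := D.h1 z
    linarith
  rw [sum_sub_distrib, sum_sub_distrib] at h1
  have := D.hT
  linarith

/-- the small items outside of `V` -/
theorem Dat4.small' (D : Dat4 t X n) (V : Finset ι) (x F : ℝ)
    (hF : F ≤ ∑ z ∈ univ.filter (fun z => t z ≤ x), t z) :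
    F - 2.0713 + ∑ z, X z - ∑ z ∈ V, X z ≤
      ∑ z ∈ (univ \ V).filter (fun z => t z ≤ x), X z := by
  have h1 := D.small x F hF
  have h2 : ∑ z ∈ univ.filter (fun z => t z ≤ x), X z ≤
      ∑ z ∈ (univ \ V).filter (fun z => t z ≤ x) ∪ V, X z := by
    refine sum_le_sum_of_subset_of_nonneg ?_ fun z _ _ => D.h0 z
    intro z hz
    rw [mem_filter] at hz
    rw [mem_union, mem_filter, mem_sdiff]
    by_cases hzV : z ∈ V
    · exact Or.inr hzV
    · exact Or.inl ⟨⟨mem_univ _, hzV⟩, hz.2⟩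
  have h3 : ∑ z ∈ (univ \ V).filter (fun z => t z ≤ x) ∪ V, X z ≤
      ∑ z ∈ (univ \ V).filter (fun z => t z ≤ x), X z + ∑ z ∈ V, X z := by
    have h4 := sum_union_inter (s₁ := (univ \ V).filter (fun z => t z ≤ x)) (s₂ := V) (f := X)
    have h5 : 0 ≤ ∑ z ∈ (univ \ V).filter (fun z => t z ≤ x) ∩ V, X z :=
      sum_nonneg fun z _ => D.h0 z
    linarith
  linarith

/-- the set `V` -/
theorem Dat4.stepV (D : Dat4 t X n) (τp : ℝ) (hτ0 : 0 ≤ τp)
    (hτ : τp ≤ ∑ z, X z - 2 + 0.000001) : ∃ (V : Finset ι),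
    τp + 0.00006 ≤ ∑ z ∈ V, X z ∧ ∑ z ∈ V, X z ≤ τp + 0.00016 := by
  have hsX : ∀ z ∈ univ.filter (fun z => t z ≤ 0.0001), X z ≤ 0.0001 :=
    fun z hz => (D.h1 z).trans (mem_filter.1 hz).2
  have h2 : 0 ≤ ∑ z ∈ univ.filter (fun z => t z ≤ 0.0001), X z := sum_nonneg fun z _ => D.h0 z
  obtain ⟨V, hVS, hVc, hV⟩ := pick X (univ.filter (fun z => t z ≤ 0.0001))
    (univ.filter (fun z => t z ≤ 0.0001)) (univ.filter (fun z => t z ≤ 0.0001))
    (Finset.Subset.refl _) (Finset.Subset.refl _) (fun z _ => D.h0 z) 0.0001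
    (τp + 0.00016) (by linarith) hsX (by
      intro z hz
      have h1 := hsX z hz
      linarith) (by
      intro z hz
      have h1 := hsX z hz
      linarith)
  refine ⟨V, ?_, hVc⟩
  rcases hV with hV | hV
  · have h1 := D.small _ _ D.s0
    rw [hV]
    have := D.le
    have := D.hX
    linarith
  · linarith

/-- the set `R` -/
theorem Dat4.stepR (D : Dat4 t X n) (V : Finset ι)
    (hV : ∑ z ∈ V, X z ≤ ∑ z, X z - 2 + 0.00017) :
    ∃ R ⊆ univ \ V, ∑ z ∈ R, X z ≤ n - 0.00001 ∧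
      (R = univ \ V ∨ n - 0.00011 ≤ ∑ z ∈ R, X z) := by
  have h1 := D.small' V _ _ D.s0
  have h1' := D.small' V _ _ D.s1
  have hle := D.le
  have hn1 := D.hn1
  obtain ⟨R, hRS, hRc, hR⟩ := pick X (univ \ V) ((univ \ V).filter (fun z => t z ≤ 0.0001))
    ((univ \ V).filter (fun z => t z ≤ 0.002))
    (filter_subset _ _) (filter_subset _ _) (fun z _ => D.h0 z) 0.0001 (n - 0.00001) (by linarith)
    (fun z hz => (D.h1 z).trans (mem_filter.1 hz).2) (by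
      intro z hz
      have h2 := D.h1 z
      have h3 := (mem_filter.1 hz).2
      linarith) (by
      intro z _
      have h2 := D.h1 z
      have h3 := D.h2 z
      linarith)
  refine ⟨R, hRS, hRc, ?_⟩
  rcases hR with hR | hR
  · exact Or.inl hR
  · right
    linarith

/-- the set `A` -/
theorem Dat4.stepA (D : Dat4 t X n) (V R : Finset ι)
    (hV : ∑ z ∈ V, X z ≤ ∑ z, X z - 2 + 0.00017) (hR : R ⊆ univ \ V) (lo hi : ℝ)
    (hhi : 0 ≤ hi) (hlo : lo ≤ ∑ z ∈ R, X z) (hw : lo + 0.0002 ≤ hi) :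
    ∃ A ⊆ univ \ V, lo ≤ ∑ z ∈ A, (if z ∈ R then X z else 2 * X z) ∧
      ∑ z ∈ A, (if z ∈ R then X z else 2 * X z) ≤ hi := by
  set ω : ι → ℝ := fun z => if z ∈ R then X z else 2 * X z with hω
  have hω1 : ∀ z, X z ≤ ω z := by
    intro z
    have := D.h0 z
    simp only [hω]
    split_ifs <;> linarith
  have hω2 : ∀ z, ω z ≤ 2 * X z := by
    intro z
    have := D.h0 z
    simp only [hω]
    split_ifs <;> linarith
  have hω0 : ∀ z, 0 ≤ ω z := fun z => (D.h0 z).trans (hω1 z)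
  have h1 := D.small' V _ _ D.s0
  have h1' := D.small' V _ _ D.s1
  have hle := D.le
  have h3 : ∑ z ∈ (univ \ V).filter (fun z => t z ≤ 0.0001), X z ≤
      ∑ z ∈ (univ \ V).filter (fun z => t z ≤ 0.0001), ω z := sum_le_sum fun z _ => hω1 z
  have h3' : ∑ z ∈ (univ \ V).filter (fun z => t z ≤ 0.002), X z ≤
      ∑ z ∈ (univ \ V).filter (fun z => t z ≤ 0.002), ω z := sum_le_sum fun z _ => hω1 z
  have hs : ∀ z ∈ (univ \ V).filter (fun z => t z ≤ 0.0001), ω z ≤ 0.0002 := by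
    intro z hz
    have h4 := hω2 z
    have h5 := D.h1 z
    have h6 := (mem_filter.1 hz).2
    linarith
  have hs' : ∀ z ∈ (univ \ V).filter (fun z => t z ≤ 0.002), ω z ≤ 0.004 := by
    intro z hz
    have h4 := hω2 z
    have h5 := D.h1 z
    have h6 := (mem_filter.1 hz).2
    linarith
  have hsub : (univ \ V).filter (fun z => t z ≤ 0.0001) ⊆ (univ \ V).filter (fun z => t z ≤ 0.002) := by
    intro z hz
    rw [mem_filter] at hz ⊢
    exact ⟨hz.1, hz.2.trans (by norm_num)⟩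
  obtain ⟨A, hAS, hAc, hA⟩ := pick ω (R ∪ (univ \ V).filter (fun z => t z ≤ 0.002))
    ((univ \ V).filter (fun z => t z ≤ 0.0001)) ((univ \ V).filter (fun z => t z ≤ 0.002))
    (hsub.trans subset_union_right) subset_union_right (fun z _ => hω0 z) 0.0002 hi hhi hs (by
      intro z hz
      have h5 := hs' z hz
      linarith) (by
      intro z hz
      rcases mem_union.1 hz with h4 | h4
      · have h5 : ω z = X z := by simp only [hω, if_pos h4]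
        have h6 := D.h1 z
        have h7 := D.h2 z
        linarith
      · have h5 := hs' z h4
        linarith)
  refine ⟨A, hAS.trans (union_subset hR (filter_subset _ _)), ?_, hAc⟩
  rcases hA with hA | hA
  · calc lo ≤ ∑ z ∈ R, X z := hlo
      _ ≤ ∑ z ∈ R, ω z := sum_le_sum fun z _ => hω1 z
      _ ≤ ∑ z ∈ A, ω z := by
        refine sum_le_sum_of_subset_of_nonneg ?_ fun z _ _ => hω0 z
        rw [hA]
        exact subset_union_left
  · linarith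

/-- The grouping lemma for nonnegative exponents. -/
theorem Dat4.main (D : Dat4 t X n) (hn0 : 3 / 2 - 0.000001 ≤ n) :
    ∃ g : ι → Fin 5, ∀ Y : Fin 5 → ℝ,
    (∀ i, Y i = ∑ z ∈ univ.filter (fun z => g z = i), X z) →
    Y 0 + Y 1 + Y 2 + Y 3 + Y 4 = ∑ z, X z ∧ ∃ H : ℝ, 0 ≤ H ∧
      H = 2 * (∑ z, X z - 2) + (n - (Y 0 + Y 1)) ∧
      Y 0 + Y 1 + 0.000001 ≤ n ∧ Y 0 + Y 1 + 2 * Y 2 + 2 * Y 3 + 0.000001 ≤ 4 - n ∧
      Y 0 + 2 * Y 2 + 4 * Y 4 + 4 * H + 0.000001 ≤ n ∧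
      Y 1 + 2 * Y 3 + 8 * H + 0.000001 ≤ 2 * n ∧
      8 * H + 0.000001 ≤ Y 1 + 2 * Y 3 := by
  have hX := D.hX
  have hn1 := D.hn1
  have hn2 := D.hn2
  have hTT := D.le
  obtain ⟨τp, hτ0, hτ1, hτ2⟩ : ∃ τp : ℝ, 0 ≤ τp ∧ ∑ z, X z - 2 ≤ τp ∧
      τp ≤ ∑ z, X z - 2 + 0.000001 := by
    refine ⟨max 0 (∑ z, X z - 2), le_max_left _ _, le_max_right _ _, ?_⟩
    refine max_le ?_ ?_ <;> linarith
  obtain ⟨V, hV1, hV2⟩ := D.stepV τp hτ0 hτ2
  have hV3 : ∑ z ∈ V, X z ≤ ∑ z, X z - 2 + 0.00017 := by linarith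
  obtain ⟨R, hRV, hRc, hR⟩ := D.stepR V hV3
  by_cases hn : n < 1.72
  · -- then `R` is not everything
    have hρ : n - 0.00011 ≤ ∑ z ∈ R, X z := by
      rcases hR with hR | hR
      · exfalso
        have h1 := sum_sdiff (f := X) (subset_univ V)
        rw [hR] at hRc
        linarith
      · exact hR
    obtain ⟨A, hAV, hA1, hA2⟩ := D.stepA V R hV3 hRV
      (4 - 3 * n + 18 * (∑ z, X z - 2) + 9 * (n - ∑ z ∈ R, X z) - 2 * ∑ z ∈ V, X z + 0.000002)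
      (n - 4 * ∑ z ∈ V, X z - 8 * (∑ z, X z - 2) - 4 * (n - ∑ z ∈ R, X z) - 0.000002)
      (by linarith) (by linarith) (by linarith)
    obtain ⟨g, _, hg⟩ := groups3 X V R A hRV hAV
    refine ⟨g, fun Y hY => ?_⟩
    obtain ⟨g1, g2, g3, g4⟩ := hg Y hY
    refine ⟨g4, _, ?_, rfl, ?_, ?_, ?_, ?_, ?_⟩ <;> linarith
  · push Not at hn
    obtain ⟨g, _, hg⟩ := groups3 X V R ∅ hRV (empty_subset _)
    refine ⟨g, fun Y hY => ?_⟩
    obtain ⟨g1, g2, g3, g4⟩ := hg Y hY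
    rw [sum_empty] at g2
    have hρ : n - 0.00011 ≤ ∑ z ∈ R, X z ∨
        (∑ z ∈ R, X z = ∑ z, X z - ∑ z ∈ V, X z) := by
      rcases hR with hR | hR
      · right
        have h1 := sum_sdiff (f := X) (subset_univ V)
        rw [hR]
        linarith
      · exact Or.inl hR
    refine ⟨g4, _, ?_, rfl, ?_, ?_, ?_, ?_, ?_⟩
    · rcases hρ with h | h <;> linarith
    · linarith
    · rcases hρ with h | h <;> linarith
    · rcases hρ with h | h <;> linarith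
    · rcases hρ with h | h <;> linarith
    · rcases hρ with h | h <;> linarith

/-- The grouping lemma for nonnegative exponents, smooth case. -/
theorem Dat4.mains (D : Dat4 t X n) (hn0 : n ≤ 3 / 2 + 0.000001) :
    ∃ g : ι → Fin 5, (∀ z, g z ≠ 4) ∧ ∀ Y : Fin 5 → ℝ,
    (∀ i, Y i = ∑ z ∈ univ.filter (fun z => g z = i), X z) →
    Y 0 + Y 1 + Y 2 + Y 3 = ∑ z, X z ∧ ∃ H : ℝ, 0 ≤ H ∧
      H = 2 * (∑ z, X z - 2) + (n - (Y 0 + Y 1)) ∧
      Y 0 + Y 1 + 0.000001 ≤ n ∧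
      Y 0 + 2 * Y 2 + 2 * H + 0.000001 ≤ n ∧
      Y 1 + 2 * Y 3 + 4 * H + 0.000001 ≤ 2 * n ∧
      4 * H + 0.000001 ≤ Y 1 + 2 * Y 3 := by
  have hX := D.hX
  have hn1 := D.hn1
  have hTT := D.le
  have hV3 : ∑ z ∈ (∅ : Finset ι), X z ≤ ∑ z, X z - 2 + 0.00017 := by
    rw [sum_empty]
    linarith
  obtain ⟨R, hRV, hRc, hR⟩ := D.stepR ∅ hV3
  have hρ : n - 0.00011 ≤ ∑ z ∈ R, X z := by
    rcases hR with hR | hR
    · exfalso
      rw [hR, sdiff_empty] at hRc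
      linarith
    · exact hR
  obtain ⟨A, hAV, hA1, hA2⟩ := D.stepA ∅ R hV3 hRV
    (4 - 3 * n + 10 * (∑ z, X z - 2) + 5 * (n - ∑ z ∈ R, X z) + 0.000002)
    (n - 4 * (∑ z, X z - 2) - 2 * (n - ∑ z ∈ R, X z) - 0.000002)
    (by linarith) (by linarith) (by linarith)
  obtain ⟨g, hg4, hg⟩ := groups3 X ∅ R A hRV hAV
  refine ⟨g, fun z hz => absurd (hg4 z hz) (notMem_empty z), fun Y hY => ?_⟩
  obtain ⟨g1, g2, g3, g4⟩ := hg Y hY
  rw [sum_empty] at g3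
  refine ⟨by linarith, _, ?_, rfl, ?_, ?_, ?_, ?_⟩ <;> linarith

end Pool.Agent.J4H32.HT
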