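import Mathlib
import Pool.Agent.H358R5.GCrit
import Pool.Agent.J4H32.HT.Crit
import Pool.Agent.J4H32.HT.Comb

/-! The criterion for the weights `∏ G(c_j) · φ(N - ∑ c_j)`, restricted to the cells with many small
coordinates, beyond the level `1/2`. -/

set_option autoImplicit false

open Finset Filter

namespace Pool.Agent.J4H32.HT

open Pool.Agent.H95R2.BG Pool.Agent.Y826.Z Pool.Agent.J4H35.ZZ Pool.Agent.J4H35.CR
open Pool.Agent.H358R5 (FG FG_sq FG_insert FG_inner FG_marg AG CHyp Adm gbox)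

/-- total size of the small coordinates -/
def smc (E : ℕ) {K : ℕ} (c : Fin K → ℕ) : ℕ := ∑ j, if c j + 1 ≤ E then c j + 1 else 0

/-- the weight, restricted to the cells with many small coordinates -/
noncomputable def FS (G φ : ℕ → ℕ) (N E S1 E' S1' : ℕ) {K : ℕ} (c : Fin K → ℕ) : ℝ :=
  if S1 ≤ smc E c ∧ S1' ≤ smc E' c then FG G φ N c else 0

theorem smc_insert (E K0 : ℕ) (i : Fin (K0 + 1)) (t : ℕ) (c : Fin K0 → ℕ) :
    smc E (Fin.insertNth (α := fun _ => ℕ) i t c) = (if t + 1 ≤ E then t + 1 else 0) + smc E c := by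
  unfold smc
  rw [Fin.sum_univ_succAbove _ i]
  simp

/-- the inner sum of the weight -/
noncomputable def HN (G φ : ℕ → ℕ) (N s : ℕ) : ℕ := ∑ t ∈ range (N - s), G (t + 1) * φ (N - s - 1 - t)

theorem gcrit3 (hP2 : S_P23) (m K0 N N1 C E S0 E' S0' Rin : ℕ) (G φ : ℕ → ℕ) (hN : 2 ≤ N) (hN1 : 0 < N1)
    (hNN : N ≤ 2 * N1) (hG : ∀ t, C < t → G t = 0) (g1 : 10000 * (Rin + (N - 1)) ≤ 20713 * N1)
    (g2 : 100 * C ≤ 45 * N1) (g3 : 10000 * E ≤ N1) (g4 : 44 * N1 ≤ 1000 * S0)
    (g3' : 500 * E' ≤ N1) (g4' : 262 * N1 ≤ 1000 * S0') (bad bad' : ℝ)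
    (hbad : ∑ c ∈ (Fintype.piFinset (fun _ : Fin K0 => range N)).filter (fun c => smc E c < S0 + E),
      (∏ j, ((G (c j + 1) : ℕ) : ℝ) ^ 2) * (HN G φ N (∑ j, (c j + 1)) : ℝ) ^ 2 ≤ bad)
    (hbad' : ∑ c ∈ (Fintype.piFinset (fun _ : Fin K0 => range N)).filter (fun c => smc E' c < S0' + E'),
      (∏ j, ((G (c j + 1) : ℕ) : ℝ) ^ 2) * (HN G φ N (∑ j, (c j + 1)) : ℝ) ^ 2 ≤ bad')
    (h : 4 * m * N1 * ∑ s ∈ range (N + 1), (AG G (K0 + 1) s : ℝ) * (φ (N - s) : ℝ) ^ 2 + (K0 + 1) * (bad + bad') <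
      (K0 + 1) * ∑ s ∈ range (N + 1), (AG G K0 s : ℝ) * (if s ≤ Rin then (HN G φ N s : ℝ) ^ 2 else 0)) :
    CHyp m (K0 + 1) := by
  classical
  intro hh hadm Q b hQ hb ε hε
  have hN1r : (0 : ℝ) < N1 := by exact_mod_cast hN1
  have hBox : ∀ k M : ℕ, Box k M = Fintype.piFinset (fun _ : Fin k => range M) := fun _ _ => rfl
  -- nonzero marginals
  have hU : ∀ (i : Fin (K0 + 1)) (c : Fin K0 → ℕ), UU N (FS G φ N E (S0 + E) E' (S0' + E')) i c ≠ 0 →
      rad c ≤ N - 1 ∧ (∀ j, c j + 1 ≤ C) ∧ S0 ≤ smc E c ∧ S0' ≤ smc E' c := by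
    intro i c hc
    unfold UU at hc
    obtain ⟨t, _, ht⟩ := Finset.exists_ne_zero_of_sum_ne_zero hc
    unfold FS at ht
    by_cases h1 : S0 + E ≤ smc E (Fin.insertNth (α := fun _ => ℕ) i t c) ∧
        S0' + E' ≤ smc E' (Fin.insertNth (α := fun _ => ℕ) i t c)
    · rw [if_pos h1, FG_insert] at ht
      by_cases h2 : (t + 1) + ∑ j, (c j + 1) ≤ N
      · rw [if_pos h2] at ht
        refine ⟨?_, ?_, ?_, ?_⟩
        · unfold rad
          omega
        · intro j
          by_contra hcon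
          have h3 : G (c j + 1) = 0 := hG _ (by omega)
          apply ht
          have h4 : ∏ j, (G (c j + 1) : ℝ) = 0 :=
            Finset.prod_eq_zero (Finset.mem_univ j) (by rw [h3, Nat.cast_zero])
          rw [h4]
          ring
        · have h1a := h1.1
          rw [smc_insert] at h1a
          split_ifs at h1a <;> omega
        · have h1b := h1.2
          rw [smc_insert] at h1b
          split_ifs at h1b <;> omega
      · rw [if_neg h2] at ht
        exact absurd rfl ht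
    · rw [if_neg h1] at ht
      exact absurd rfl ht
  -- the marginals of the good cells
  have hUg : ∀ (i : Fin (K0 + 1)) (c : Fin K0 → ℕ), S0 + E ≤ smc E c → S0' + E' ≤ smc E' c →
      UU N (FS G φ N E (S0 + E) E' (S0' + E')) i c = UU N (FG G φ N) i c := by
    intro i c hc hc'
    unfold UU
    refine Finset.sum_congr rfl fun t _ => ?_
    unfold FS
    rw [if_pos]
    rw [smc_insert, smc_insert]
    omega
  have hUF : ∀ (i : Fin (K0 + 1)) (c : Fin K0 → ℕ), UU N (FG G φ N) i c ^ 2 =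
      (∏ j, ((G (c j + 1) : ℕ) : ℝ) ^ 2) * (HN G φ N (∑ j, (c j + 1)) : ℝ) ^ 2 := by
    intro i c
    unfold UU
    rw [FG_inner, mul_pow, Finset.prod_pow]
    rfl
  set A : Finset (Fin K0 → ℕ) := (Box K0 N).filter
    (fun c => rad c ≤ N - 1 ∧ (∀ j, c j + 1 ≤ C) ∧ S0 ≤ smc E c ∧ S0' ≤ smc E' c) with hAdef
  have hSm : ∀ (c : Fin K0 → ℕ) (e b k : ℕ) (x : ℝ), (b : ℝ) * x = 1 → 0 < b → b * e ≤ N1 →
      (k : ℝ) / N1 ≤ (smc e c : ℝ) / N1 → (k : ℝ) / N1 ≤ Sm N1 x c := by
    intro c e b k x hbx hb hbe hk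
    refine hk.trans ?_
    have hb0 : (0 : ℝ) < b := by exact_mod_cast hb
    unfold smc Sm
    push_cast
    rw [Finset.sum_div]
    refine Finset.sum_le_sum fun j _ => ?_
    by_cases hj : c j + 1 ≤ e
    · rw [if_pos hj, if_pos]
      rw [div_le_iff₀ hN1r]
      have h1 : ((c j + 1 : ℕ) : ℝ) ≤ e := by exact_mod_cast hj
      have h2 : ((b * e : ℕ) : ℝ) ≤ (N1 : ℝ) := by exact_mod_cast hbe
      push_cast at h1 h2
      have h3 : (b : ℝ) * ((c j : ℝ) + 1) ≤ b * (x * N1) := by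
        calc (b : ℝ) * ((c j : ℝ) + 1) ≤ b * e := mul_le_mul_of_nonneg_left h1 hb0.le
          _ ≤ N1 := h2
          _ = (b * x) * N1 := by rw [hbx, one_mul]
          _ = b * (x * N1) := by ring
      exact le_of_mul_le_mul_left h3 hb0
    · rw [if_neg hj, zero_div]
      split_ifs
      · positivity
      · exact le_rfl
  have hGd : ∀ c ∈ A, Gd4 N1 c := by
    intro c hc
    rw [hAdef, Finset.mem_filter] at hc
    obtain ⟨_, _, hc2, hc3, hc4⟩ := hc
    refine ⟨fun j => ?_, ?_, ?_⟩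
    · rw [div_le_iff₀ hN1r]
      have h1 : ((c j + 1 : ℕ) : ℝ) ≤ C := by exact_mod_cast hc2 j
      have h2 : ((100 * C : ℕ) : ℝ) ≤ ((45 * N1 : ℕ) : ℝ) := by exact_mod_cast g2
      push_cast at h1 h2
      linarith
    · have h3 : (S0 : ℝ) ≤ smc E c := by exact_mod_cast hc3
      have h4 := hSm c E 10000 S0 0.0001 (by norm_num) (by norm_num) g3
        (div_le_div_of_nonneg_right h3 hN1r.le)
      refine le_trans ?_ h4
      rw [le_div_iff₀ hN1r]
      have h5 : ((44 * N1 : ℕ) : ℝ) ≤ ((1000 * S0 : ℕ) : ℝ) := by exact_mod_cast g4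
      push_cast at h5
      linarith
    · have h3 : (S0' : ℝ) ≤ smc E' c := by exact_mod_cast hc4
      have h4 := hSm c E' 500 S0' 0.002 (by norm_num) (by norm_num) g3'
        (div_le_div_of_nonneg_right h3 hN1r.le)
      refine le_trans ?_ h4
      rw [le_div_iff₀ hN1r]
      have h5 : ((262 * N1 : ℕ) : ℝ) ≤ ((1000 * S0' : ℕ) : ℝ) := by exact_mod_cast g4'
      push_cast at h5
      linarith
  have hmain := crit3m hP2 m (K0 := K0) (N1 := N1) (M := N) (R := N - 1) hN1 hNN (by omega)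
    (FS G φ N E (S0 + E) E' (S0' + E')) ?_ A (Finset.filter_subset _ _) ?_ 0 (fun _ => 0) (fun _ => le_rfl)
    (fun _ _ => 0) (fun c c' => if rad c ≤ Rin ∨ rad c' ≤ Rin then 1 else 0) ?_ ?_ ?_ hh hadm Q b hQ hb ε hε
  · exact hmain
  · intro c hc
    unfold FS at hc
    split_ifs at hc with h1
    · unfold FG at hc
      have h1 : ∑ j, (c j + 1) ≤ N := by
        by_contra hcon
        rw [if_neg hcon] at hc
        exact hc rfl
      unfold rad
      omega
    · exact absurd rfl hc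
  · intro i c hc hne
    rw [hAdef, Finset.mem_filter]
    exact ⟨hc, hU i c hne⟩
  · intro Y
    simp only [Finset.univ_eq_empty, Finset.sum_empty, add_zero]
    have k1 : ∑ c ∈ A, ∑ c' ∈ A, (if rad c ≤ Rin ∨ rad c' ≤ Rin then (1 : ℝ) else 0) * (Y c * Y c') =
        (∑ c ∈ A, Y c) ^ 2 - (∑ c ∈ A, if rad c ≤ Rin then 0 else Y c) ^ 2 := by
      rw [pow_two, pow_two, Finset.sum_mul_sum, Finset.sum_mul_sum, ← Finset.sum_sub_distrib]
      refine Finset.sum_congr rfl fun c _ => ?_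
      rw [← Finset.sum_sub_distrib]
      refine Finset.sum_congr rfl fun c' _ => ?_
      by_cases h1 : rad c ≤ Rin <;> by_cases h2 : rad c' ≤ Rin <;> simp [h1, h2]
    rw [k1]
    have := sq_nonneg (∑ c ∈ A, if rad c ≤ Rin then 0 else Y c)
    linarith
  · intro c hc c' hc' hκ
    refine comb4 K0 N1 hN1 c c' (hGd c hc) (hGd c' hc') ?_
    rw [div_le_iff₀ hN1r]
    rw [hAdef, Finset.mem_filter] at hc hc'
    have h0 : rad c ≤ Rin ∨ rad c' ≤ Rin := by
      by_contra hcon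
      rw [if_neg hcon] at hκ
      exact hκ rfl
    have h1 : rad c + rad c' ≤ Rin + (N - 1) := by
      have := hc.2.1
      have := hc'.2.1
      omega
    have h2 : ((rad c + rad c' : ℕ) : ℝ) ≤ ((Rin + (N - 1) : ℕ) : ℝ) := by exact_mod_cast h1
    have h3 : ((10000 * (Rin + (N - 1)) : ℕ) : ℝ) ≤ ((20713 * N1 : ℕ) : ℝ) := by exact_mod_cast g1
    push_cast at h2 h3
    push_cast
    linarith
  · have e1 : ∑ c ∈ Box (K0 + 1) N, FS G φ N E (S0 + E) E' (S0' + E') c ^ 2 ≤
        ∑ s ∈ range (N + 1), (AG G (K0 + 1) s : ℝ) * (φ (N - s) : ℝ) ^ 2 := by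
      rw [hBox, ← FG_sq G φ N (K0 + 1)]
      refine Finset.sum_le_sum fun c _ => ?_
      unfold FS
      split_ifs
      · exact le_rfl
      · rw [zero_pow two_ne_zero]
        exact sq_nonneg _
    have e2 : ∀ i : Fin (K0 + 1), ∑ s ∈ range (N + 1), (AG G K0 s : ℝ) *
        (if s ≤ Rin then (HN G φ N s : ℝ) ^ 2 else 0) - (bad + bad') ≤
        ∑ c ∈ A, ((if rad c ≤ Rin ∨ rad c ≤ Rin then (1 : ℝ) else 0) -
          4 * ∑ l : Fin 0, (0 : ℝ) * ((0 : ℝ) ^ 2 / (2 - (rad c : ℝ) / N1))) *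
          UU N (FS G φ N E (S0 + E) E' (S0' + E')) i c ^ 2 := by
      intro i
      have h1 : ∑ c ∈ A, ((if rad c ≤ Rin ∨ rad c ≤ Rin then (1 : ℝ) else 0) -
          4 * ∑ l : Fin 0, (0 : ℝ) * ((0 : ℝ) ^ 2 / (2 - (rad c : ℝ) / N1))) *
          UU N (FS G φ N E (S0 + E) E' (S0' + E')) i c ^ 2 =
          ∑ c ∈ Box K0 N, (if rad c ≤ Rin then (1 : ℝ) else 0) * UU N (FS G φ N E (S0 + E) E' (S0' + E')) i c ^ 2 := by
        have h2 : ∀ c ∈ A, ((if rad c ≤ Rin ∨ rad c ≤ Rin then (1 : ℝ) else 0) -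
            4 * ∑ l : Fin 0, (0 : ℝ) * ((0 : ℝ) ^ 2 / (2 - (rad c : ℝ) / N1))) *
            UU N (FS G φ N E (S0 + E) E' (S0' + E')) i c ^ 2 =
            (if rad c ≤ Rin then (1 : ℝ) else 0) * UU N (FS G φ N E (S0 + E) E' (S0' + E')) i c ^ 2 := by
          intro c _
          simp
        rw [Finset.sum_congr rfl h2]
        refine Finset.sum_subset (Finset.filter_subset _ _) ?_
        intro c hc hcA
        by_cases h0 : UU N (FS G φ N E (S0 + E) E' (S0' + E')) i c = 0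
        · rw [h0, zero_pow two_ne_zero, mul_zero]
        · exact absurd (Finset.mem_filter.2 ⟨hc, hU i c h0⟩) hcA
      have h3 : ∑ c ∈ Box K0 N, (if rad c ≤ Rin then (1 : ℝ) else 0) * UU N (FG G φ N) i c ^ 2 =
          ∑ s ∈ range (N + 1), (AG G K0 s : ℝ) * (if s ≤ Rin then (HN G φ N s : ℝ) ^ 2 else 0) := by
        rw [hBox]
        have hb := gbox G K0 N N (fun s => if s ≤ Rin then (HN G φ N s : ℝ) ^ 2 else 0) le_rfl (by
          intro s hs
          have h4 : HN G φ N s = 0 := by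
            unfold HN
            have : N - s = 0 := by omega
            rw [this, Finset.range_zero, Finset.sum_empty]
          simp [h4])
        rw [← hb]
        refine Finset.sum_congr rfl fun c _ => ?_
        rw [hUF]
        have h5 : rad c = ∑ j, (c j + 1) := rfl
        rw [← h5]
        split_ifs <;> ring
      have h4 : ∑ c ∈ Box K0 N, (if rad c ≤ Rin then (1 : ℝ) else 0) * UU N (FG G φ N) i c ^ 2 ≤
          ∑ c ∈ (Box K0 N).filter (fun c => smc E c < S0 + E), UU N (FG G φ N) i c ^ 2 +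
          ∑ c ∈ (Box K0 N).filter (fun c => smc E' c < S0' + E'), UU N (FG G φ N) i c ^ 2 +
          ∑ c ∈ Box K0 N, (if rad c ≤ Rin then (1 : ℝ) else 0) *
            UU N (FS G φ N E (S0 + E) E' (S0' + E')) i c ^ 2 := by
        rw [Finset.sum_filter, Finset.sum_filter, ← Finset.sum_add_distrib, ← Finset.sum_add_distrib]
        refine Finset.sum_le_sum fun c _ => ?_
        have q1 := sq_nonneg (UU N (FG G φ N) i c)
        have q2 := sq_nonneg (UU N (FS G φ N E (S0 + E) E' (S0' + E')) i c)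
        by_cases b1 : smc E c < S0 + E
        · rw [if_pos b1]
          by_cases b2 : smc E' c < S0' + E' <;> by_cases b3 : rad c ≤ Rin <;> simp [b2, b3] <;> linarith
        · rw [if_neg b1]
          by_cases b2 : smc E' c < S0' + E'
          · rw [if_pos b2]
            by_cases b3 : rad c ≤ Rin <;> simp [b3] <;> linarith
          · rw [if_neg b2, hUg i c (not_lt.1 b1) (not_lt.1 b2)]
            linarith
      have h5 : ∑ c ∈ (Box K0 N).filter (fun c => smc E c < S0 + E), UU N (FG G φ N) i c ^ 2 ≤ bad := by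
        refine le_trans (le_of_eq ?_) hbad
        rw [hBox]
        exact Finset.sum_congr rfl fun c _ => hUF i c
      have h6 : ∑ c ∈ (Box K0 N).filter (fun c => smc E' c < S0' + E'), UU N (FG G φ N) i c ^ 2 ≤ bad' := by
        refine le_trans (le_of_eq ?_) hbad'
        rw [hBox]
        exact Finset.sum_congr rfl fun c _ => hUF i c
      rw [h1]
      linarith
    have e3 := Finset.sum_le_sum (s := (univ : Finset (Fin (K0 + 1)))) fun i _ => e2 i
    rw [Finset.sum_const, Finset.card_univ, Fintype.card_fin, nsmul_eq_mul] at e3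
    refine lt_of_lt_of_le ?_ e3
    have e4 : (4 * m * N1 : ℝ) * ∑ c ∈ Box (K0 + 1) N, FS G φ N E (S0 + E) E' (S0' + E') c ^ 2 ≤
        4 * m * N1 * ∑ s ∈ range (N + 1), (AG G (K0 + 1) s : ℝ) * (φ (N - s) : ℝ) ^ 2 :=
      mul_le_mul_of_nonneg_left e1 (by positivity)
    push_cast
    linarith

end Pool.Agent.J4H32.HT
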