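import Mathlib
import Pool.Agent.J4H32.HT.Wt
import Pool.Agent.H358R5.Stubs4

/-! The total weight of the cells with few small coordinates. -/

set_option autoImplicit false

open Finset Filter

namespace Pool.Agent.J4H32.HT

open Pool.Agent.H358R5 (BT)

/-- the weights of the exponential moment -/
noncomputable def zw (z : ℝ) (E t : ℕ) : ℝ := if t ≤ E then z ^ t else 1

theorem zw_nonneg (z : ℝ) (hz : 0 ≤ z) (E t : ℕ) : 0 ≤ zw z E t := by
  unfold zw
  split_ifs <;> positivity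

theorem bad_bound (G φ : ℕ → ℕ) (K0 N E S1 : ℕ) (z : ℝ) (hz0 : 0 < z) (hz1 : z ≤ 1) (Hm : ℕ)
    (hH : ∀ s, HN G φ N s ≤ Hm) (B : ℝ)
    (hB : ∑ t ∈ range N, ((G (t + 1) : ℕ) : ℝ) ^ 2 * zw z E (t + 1) ≤ B) :
    ∑ c ∈ (Fintype.piFinset (fun _ : Fin K0 => range N)).filter (fun c => smc E c < S1),
      (∏ j, ((G (c j + 1) : ℕ) : ℝ) ^ 2) * (HN G φ N (∑ j, (c j + 1)) : ℝ) ^ 2 ≤
    (Hm : ℝ) ^ 2 * B ^ K0 / z ^ S1 := by
  have hzS : 0 < z ^ S1 := pow_pos hz0 _
  have h1 : ∀ c : Fin K0 → ℕ, z ^ smc E c = ∏ j, zw z E (c j + 1) := by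
    intro c
    unfold smc zw
    rw [← Finset.prod_pow_eq_pow_sum]
    refine Finset.prod_congr rfl fun j _ => ?_
    split_ifs
    · rfl
    · rw [pow_zero]
  have h2 : ∀ c ∈ (Fintype.piFinset (fun _ : Fin K0 => range N)).filter (fun c => smc E c < S1),
      (∏ j, ((G (c j + 1) : ℕ) : ℝ) ^ 2) * (HN G φ N (∑ j, (c j + 1)) : ℝ) ^ 2 ≤
      (Hm : ℝ) ^ 2 / z ^ S1 * ∏ j, (((G (c j + 1) : ℕ) : ℝ) ^ 2 * zw z E (c j + 1)) := by
    intro c hc
    have hc2 : smc E c < S1 := (Finset.mem_filter.1 hc).2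
    have hp : 0 ≤ ∏ j, ((G (c j + 1) : ℕ) : ℝ) ^ 2 := Finset.prod_nonneg fun j _ => sq_nonneg _
    have h3 : (HN G φ N (∑ j, (c j + 1)) : ℝ) ^ 2 ≤ (Hm : ℝ) ^ 2 := by
      have : (HN G φ N (∑ j, (c j + 1)) : ℝ) ≤ Hm := by exact_mod_cast hH _
      exact pow_le_pow_left₀ (Nat.cast_nonneg _) this 2
    have h4 : 1 ≤ z ^ smc E c / z ^ S1 := by
      rw [one_le_div hzS]
      exact pow_le_pow_of_le_one hz0.le hz1 hc2.le
    rw [Finset.prod_mul_distrib, ← h1]
    calc (∏ j, ((G (c j + 1) : ℕ) : ℝ) ^ 2) * (HN G φ N (∑ j, (c j + 1)) : ℝ) ^ 2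
        ≤ (∏ j, ((G (c j + 1) : ℕ) : ℝ) ^ 2) * (Hm : ℝ) ^ 2 := mul_le_mul_of_nonneg_left h3 hp
      _ = ((∏ j, ((G (c j + 1) : ℕ) : ℝ) ^ 2) * (Hm : ℝ) ^ 2) * 1 := (mul_one _).symm
      _ ≤ ((∏ j, ((G (c j + 1) : ℕ) : ℝ) ^ 2) * (Hm : ℝ) ^ 2) * (z ^ smc E c / z ^ S1) :=
          mul_le_mul_of_nonneg_left h4 (mul_nonneg hp (sq_nonneg _))
      _ = _ := by ring
  calc _ ≤ ∑ c ∈ (Fintype.piFinset (fun _ : Fin K0 => range N)).filter (fun c => smc E c < S1),
        (Hm : ℝ) ^ 2 / z ^ S1 * ∏ j, (((G (c j + 1) : ℕ) : ℝ) ^ 2 * zw z E (c j + 1)) :=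
        Finset.sum_le_sum h2
    _ ≤ ∑ c ∈ Fintype.piFinset (fun _ : Fin K0 => range N),
        (Hm : ℝ) ^ 2 / z ^ S1 * ∏ j, (((G (c j + 1) : ℕ) : ℝ) ^ 2 * zw z E (c j + 1)) := by
        refine Finset.sum_le_sum_of_subset_of_nonneg (Finset.filter_subset _ _) fun c _ _ => ?_
        refine mul_nonneg (by positivity) (Finset.prod_nonneg fun j _ => ?_)
        exact mul_nonneg (sq_nonneg _) (zw_nonneg z hz0.le _ _)
    _ = (Hm : ℝ) ^ 2 / z ^ S1 *
        (∑ t ∈ range N, ((G (t + 1) : ℕ) : ℝ) ^ 2 * zw z E (t + 1)) ^ K0 := by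
        rw [← Finset.mul_sum]
        congr 1
        have h5 := Finset.prod_univ_sum (fun _ : Fin K0 => range N)
          (fun (_ : Fin K0) (t : ℕ) => ((G (t + 1) : ℕ) : ℝ) ^ 2 * zw z E (t + 1))
        rw [Finset.prod_const, Finset.card_univ, Fintype.card_fin] at h5
        exact h5.symm
    _ ≤ (Hm : ℝ) ^ 2 / z ^ S1 * B ^ K0 := by
        apply mul_le_mul_of_nonneg_left _ (by positivity)
        apply pow_le_pow_left₀ _ hB
        exact Finset.sum_nonneg fun t _ => mul_nonneg (sq_nonneg _) (zw_nonneg z hz0.le _ _)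
    _ = _ := by ring

/-- second order bound for a power -/
theorem pow_le_quad (x : ℝ) (h0 : 0 ≤ x) (h1 : x ≤ 1) (n : ℕ) :
    (1 - x) ^ n ≤ 1 - n * x + n * (n - 1) / 2 * x ^ 2 := by
  induction n with
  | zero => simp
  | succ n ih =>
    rw [pow_succ]
    have h2 : (1 - x) ^ n * (1 - x) ≤ (1 - n * x + n * (n - 1) / 2 * x ^ 2) * (1 - x) :=
      mul_le_mul_of_nonneg_right ih (by linarith)
    refine h2.trans ?_
    push_cast
    have h3 : 0 ≤ (n : ℝ) * (n - 1) := by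
      rcases Nat.eq_zero_or_pos n with h | h
      · rw [h]; simp
      · have : (1 : ℝ) ≤ n := by exact_mod_cast h
        exact mul_nonneg (by positivity) (by linarith)
    have h4 : 0 ≤ (n : ℝ) * (n - 1) / 2 * x ^ 3 := by positivity
    nlinarith

/-- the bound for the exponential moment of a tree -/
def bz (q E : ℕ) : BT → ℕ → ℕ
  | BT.leaf l v, o => l * v ^ 2 * (bif Nat.ble (o + l) E then q ^ 2 + (q - (o + 1)) ^ 2 else 2 * q ^ 2)
  | BT.node a b, o => bz q E a o + bz q E b (o + a.len)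

theorem bz_bound (q E : ℕ) (hq : 1 ≤ q) (hE : E ≤ q) (t : BT) : ∀ o : ℕ,
    ∑ i ∈ range t.len, ((t.val i : ℕ) : ℝ) ^ 2 * zw (1 - 1 / q) E (o + i + 1) ≤
      (bz q E t o : ℝ) / (2 * q ^ 2) := by
  have hq0 : (0 : ℝ) < q := by exact_mod_cast hq
  have hx0 : (0 : ℝ) ≤ 1 / q := by positivity
  have hx1 : (1 : ℝ) / q ≤ 1 := by
    rw [div_le_one hq0]
    exact_mod_cast hq
  induction t with
  | leaf l v =>
    intro o
    simp only [BT.len, bz]
    have h1 : ∀ i ∈ range l, (((BT.leaf l v).val i : ℕ) : ℝ) ^ 2 * zw (1 - 1 / q) E (o + i + 1) ≤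
        (v : ℝ) ^ 2 * (((bif Nat.ble (o + l) E then q ^ 2 + (q - (o + 1)) ^ 2 else 2 * q ^ 2 : ℕ) : ℝ) /
          (2 * q ^ 2)) := by
      intro i hi
      have hi' := Finset.mem_range.1 hi
      have h2 : (BT.leaf l v).val i = v := by simp [BT.val, hi']
      rw [h2]
      apply mul_le_mul_of_nonneg_left _ (sq_nonneg _)
      cases hb : Nat.ble (o + l) E with
      | true =>
        have h3 : o + l ≤ E := Nat.le_of_ble_eq_true hb
        have h4 : o + 1 ≤ q := by omega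
        simp only [cond_true]
        unfold zw
        rw [if_pos (by omega)]
        have h5 : (1 - 1 / (q : ℝ)) ^ (o + i + 1) ≤ (1 - 1 / (q : ℝ)) ^ (o + 1) :=
          pow_le_pow_of_le_one (by linarith) (by linarith) (by omega)
        refine h5.trans ((pow_le_quad _ hx0 hx1 (o + 1)).trans ?_)
        push_cast [Nat.cast_sub h4]
        rw [le_div_iff₀ (by positivity)]
        have e1 : (1 - ((o : ℝ) + 1) * (1 / q) + (o + 1) * (o + 1 - 1) / 2 * (1 / (q : ℝ)) ^ 2) *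
            (2 * q ^ 2) = 2 * q ^ 2 - 2 * (o + 1) * q + (o + 1) * o := by
          field_simp
          ring
        rw [e1]
        have h6 : (0 : ℝ) ≤ o := Nat.cast_nonneg _
        nlinarith
      | false =>
        simp only [cond_false]
        push_cast
        rw [div_self (by positivity)]
        unfold zw
        split_ifs
        · exact pow_le_one₀ (by linarith) (by linarith)
        · exact le_rfl
    refine (Finset.sum_le_sum h1).trans ?_
    rw [Finset.sum_const, Finset.card_range, nsmul_eq_mul]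
    push_cast
    apply le_of_eq
    ring
  | node a b iha ihb =>
    intro o
    simp only [BT.len, bz]
    rw [Finset.sum_range_add]
    have h1 : ∑ i ∈ range a.len, (((BT.node a b).val i : ℕ) : ℝ) ^ 2 * zw (1 - 1 / q) E (o + i + 1) =
        ∑ i ∈ range a.len, ((a.val i : ℕ) : ℝ) ^ 2 * zw (1 - 1 / q) E (o + i + 1) := by
      refine Finset.sum_congr rfl fun i hi => ?_
      have : (BT.node a b).val i = a.val i := by simp [BT.val, Finset.mem_range.1 hi]
      rw [this]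
    have h2 : ∑ i ∈ range b.len, (((BT.node a b).val (a.len + i) : ℕ) : ℝ) ^ 2 *
          zw (1 - 1 / q) E (o + (a.len + i) + 1) =
        ∑ i ∈ range b.len, ((b.val i : ℕ) : ℝ) ^ 2 * zw (1 - 1 / q) E ((o + a.len) + i + 1) := by
      refine Finset.sum_congr rfl fun i _ => ?_
      have : (BT.node a b).val (a.len + i) = b.val i := by simp [BT.val]
      rw [this, ← add_assoc o]
    rw [h1, h2]
    have h3 := iha o
    have h4 := ihb (o + a.len)
    push_cast
    rw [add_div]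
    exact add_le_add h3 h4

end Pool.Agent.J4H32.HT
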