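import Pool.Agent.H358R5.Stubs3

/-! Certificate data (block trees) for three primes among 2606 shifts. -/

set_option autoImplicit false

namespace Pool.Agent.J4H32.HT.Dat

open Pool.Agent.H358R5 (BT)

/-! the weight `G` -/

def g0 : BT := (.node (.node (.node (.node (.leaf 1 4145111) (.leaf 1 4082297)) (.node (.leaf 1 4021359) (.leaf 1 3962213))) (.node (.node (.leaf 1 3904782) (.leaf 1 3848991)) (.node (.leaf 1 3794772) (.leaf 1 3742059)))) (.node (.node (.node (.leaf 1 3690790) (.leaf 1 3640907)) (.node (.leaf 1 3592354) (.leaf 1 3545079))) (.node (.node (.leaf 1 3499032) (.leaf 1 3454165)) (.node (.leaf 1 3410435) (.node (.leaf 1 3367797) (.leaf 1 3326213))))))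
def g1 : BT := (.node (.node (.node (.node (.leaf 1 3285642) (.leaf 1 3246049)) (.node (.leaf 1 3207399) (.leaf 1 3169659))) (.node (.node (.leaf 1 3132796) (.leaf 1 3096780)) (.node (.leaf 1 3061583) (.leaf 1 3027177)))) (.node (.node (.node (.leaf 1 2993535) (.leaf 1 2960633)) (.node (.leaf 1 2928446) (.leaf 1 2896952))) (.node (.node (.leaf 1 2866127) (.leaf 1 2835951)) (.node (.leaf 1 2806404) (.node (.leaf 1 2777467) (.leaf 1 2749119))))))
def g2 : BT := .node g0 g1
def g3 : BT := (.node (.node (.node (.node (.leaf 1 2721345) (.leaf 1 2694126)) (.node (.leaf 1 2667446) (.leaf 1 2641289))) (.node (.node (.leaf 1 2615640) (.leaf 1 2590484)) (.node (.leaf 1 2565808) (.leaf 1 2541596)))) (.node (.node (.node (.leaf 1 2517838) (.leaf 1 2494520)) (.node (.leaf 1 2471629) (.leaf 1 2449154))) (.node (.node (.leaf 1 2427085) (.leaf 1 2405410)) (.node (.leaf 1 2384118) (.node (.leaf 1 2363200) (.leaf 1 2342645))))))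
def g4 : BT := (.node (.node (.node (.node (.leaf 1 2322445) (.leaf 1 2302590)) (.node (.leaf 1 2283072) (.leaf 1 2263882))) (.node (.node (.leaf 1 2245012) (.leaf 1 2226453)) (.node (.leaf 1 2208199) (.node (.leaf 1 2190242) (.leaf 1 2172574))))) (.node (.node (.node (.leaf 1 2155189) (.leaf 1 2138080)) (.node (.leaf 1 2121240) (.leaf 1 2104663))) (.node (.node (.leaf 1 2088344) (.leaf 1 2072275)) (.node (.leaf 1 2056452) (.node (.leaf 1 2040869) (.leaf 1 2025520))))))
def g5 : BT := .node g3 g4
def g6 : BT := .node g2 g5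
def g7 : BT := (.node (.node (.node (.node (.leaf 1 2010400) (.leaf 1 1995504)) (.node (.leaf 1 1980827) (.leaf 1 1966364))) (.node (.node (.leaf 1 1952111) (.leaf 1 1938063)) (.node (.leaf 1 1924216) (.leaf 1 1910565)))) (.node (.node (.node (.leaf 1 1897106) (.leaf 1 1883836)) (.node (.leaf 1 1870750) (.leaf 1 1857844))) (.node (.node (.leaf 1 1845115) (.leaf 1 1832560)) (.node (.leaf 1 1820174) (.node (.leaf 1 1807954) (.leaf 1 1795897))))))
def g8 : BT := (.node (.node (.node (.node (.leaf 1 1784000) (.leaf 1 1772260)) (.node (.leaf 1 1760673) (.leaf 1 1749236))) (.node (.node (.leaf 1 1737947) (.leaf 1 1726803)) (.node (.leaf 1 1715800) (.leaf 1 1704937)))) (.node (.node (.node (.leaf 1 1694211) (.leaf 1 1683619)) (.node (.leaf 1 1673158) (.leaf 1 1662826))) (.node (.node (.leaf 1 1652622) (.leaf 2 1637547)) (.leaf 2 1617870))))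
def g9 : BT := .node g7 g8
def g10 : BT := (.node (.node (.node (.node (.leaf 2 1598660) (.leaf 2 1579901)) (.node (.leaf 2 1561577) (.leaf 2 1543673))) (.node (.node (.leaf 2 1526174) (.leaf 2 1509068)) (.node (.leaf 2 1492341) (.node (.leaf 2 1475980) (.leaf 2 1459974))))) (.node (.node (.node (.leaf 2 1444312) (.leaf 2 1428982)) (.node (.leaf 2 1413973) (.leaf 2 1399277))) (.node (.node (.leaf 2 1384883) (.leaf 2 1370781)) (.node (.leaf 2 1356964) (.node (.leaf 2 1343423) (.leaf 2 1330149))))))
def g11 : BT := .node g9 g10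
def g12 : BT := .node g6 g11
def g13 : BT := (.node (.node (.node (.node (.node (.leaf 2 1317135) (.leaf 2 1304373)) (.node (.leaf 2 1291855) (.leaf 2 1279576))) (.node (.node (.leaf 2 1267528) (.leaf 3 1252782)) (.leaf 3 1235534))) (.node (.node (.leaf 3 1218755) (.node (.leaf 3 1202425) (.leaf 3 1186526))) (.node (.leaf 3 1171043) (.node (.leaf 3 1155958) (.leaf 3 1141256))))) (.node (.node (.node (.leaf 3 1126924) (.node (.leaf 3 1112947) (.leaf 3 1099312))) (.node (.leaf 3 1086007) (.node (.leaf 3 1073020) (.leaf 3 1060340)))) (.node (.node (.leaf 3 1047956) (.node (.leaf 3 1035858) (.leaf 3 1024035))) (.node (.leaf 4 1010579) (.leaf 4 995627)))))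
def g14 : BT := (.node (.node (.node (.node (.leaf 4 981111) (.leaf 4 967011)) (.node (.leaf 4 953311) (.leaf 4 939994))) (.node (.node (.leaf 4 927043) (.leaf 4 914444)) (.node (.leaf 4 902182) (.node (.leaf 4 890245) (.leaf 4 878620))))) (.node (.node (.node (.leaf 4 867294) (.leaf 4 856256)) (.node (.leaf 5 844169) (.leaf 5 831133))) (.node (.leaf 5 818494) (.node (.leaf 5 806232) (.leaf 5 794333)))))
def g15 : BT := .node g13 g14
def g16 : BT := .node g12 g15
def g17 : BT := (.node (.node (.node (.node (.leaf 5 782779) (.node (.leaf 5 771556) (.leaf 5 760651))) (.node (.node (.leaf 5 750049) (.leaf 5 739738)) (.leaf 6 728719))) (.node (.node (.leaf 6 717066) (.node (.leaf 6 705780) (.leaf 6 694843))) (.node (.leaf 6 684240) (.node (.leaf 6 673955) (.leaf 6 663974))))) (.node (.node (.node (.node (.leaf 6 654285) (.leaf 7 644102)) (.leaf 7 633484)) (.node (.leaf 7 623210) (.leaf 7 613264))) (.node (.node (.leaf 7 603630) (.node (.leaf 7 594293) (.leaf 7 585241))) (.node (.leaf 8 575843) (.leaf 8 566146)))))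
def g18 : BT := (.node (.node (.node (.node (.leaf 8 556769) (.leaf 8 547698)) (.node (.leaf 8 538917) (.leaf 8 530413))) (.node (.node (.leaf 8 522173) (.leaf 9 513693)) (.node (.leaf 9 505010) (.leaf 9 496615)))) (.node (.node (.node (.leaf 9 488494) (.leaf 9 480634)) (.node (.leaf 10 472607) (.leaf 10 464442))) (.node (.leaf 10 456554) (.node (.leaf 10 448929) (.leaf 10 441554)))))
def g19 : BT := .node g17 g18
def g20 : BT := .node g16 g19
def g21 : BT := (.node (.node (.node (.node (.leaf 11 434067) (.node (.leaf 11 426490) (.leaf 11 419173))) (.node (.node (.leaf 11 412103) (.leaf 11 405266)) (.leaf 12 398357))) (.node (.node (.leaf 12 391394) (.node (.leaf 12 384673) (.leaf 12 378180))) (.node (.leaf 13 371645) (.node (.leaf 13 365083) (.leaf 13 358749))))) (.node (.node (.node (.node (.leaf 13 352631) (.leaf 14 346494)) (.leaf 14 340351)) (.node (.leaf 14 334422) (.leaf 14 328696))) (.node (.node (.leaf 15 322969) (.leaf 15 317250)) (.node (.leaf 15 311730) (.leaf 16 306224)))))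
def g22 : BT := (.node (.node (.node (.node (.leaf 16 300740) (.leaf 16 295449)) (.node (.leaf 17 290184) (.leaf 17 284952))) (.node (.node (.leaf 17 279905) (.leaf 18 274893)) (.node (.leaf 18 269921) (.leaf 18 265126)))) (.node (.node (.node (.leaf 19 260372) (.leaf 19 255663)) (.node (.leaf 19 251121) (.leaf 20 246625))) (.node (.node (.leaf 20 242177) (.leaf 21 237781)) (.leaf 21 233440))))
def g23 : BT := .node g21 g22
def g24 : BT := .node g20 g23
def g25 : BT := (.node (.node (.node (.node (.node (.leaf 21 229255) (.leaf 22 225122)) (.leaf 22 221045)) (.node (.node (.leaf 23 217024) (.leaf 23 213063)) (.leaf 24 209162))) (.node (.node (.node (.leaf 24 205322) (.leaf 25 201545)) (.leaf 25 197831)) (.node (.node (.leaf 26 194181) (.leaf 26 190595)) (.leaf 27 187074)))) (.node (.node (.node (.node (.leaf 27 183618) (.leaf 28 180226)) (.leaf 28 176899)) (.node (.leaf 29 173635) (.leaf 29 170436))) (.node (.node (.leaf 30 167300) (.leaf 31 164177)) (.node (.leaf 31 161119) (.leaf 32 158127)))))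
def g26 : BT := (.node (.node (.node (.node (.leaf 33 155153) (.leaf 33 152246)) (.node (.leaf 34 149404) (.leaf 35 146585))) (.node (.node (.leaf 35 143832) (.leaf 36 141144)) (.node (.leaf 37 138482) (.leaf 37 135884)))) (.node (.node (.node (.leaf 38 133348) (.leaf 39 130841)) (.node (.leaf 40 128364) (.leaf 40 125950))) (.node (.node (.leaf 41 123596) (.leaf 42 121274)) (.leaf 43 118984))))
def g27 : BT := .node g25 g26
def g28 : BT := .node g24 g27
def g29 : BT := (.node (.node (.node (.node (.node (.leaf 44 116728) (.leaf 45 114506)) (.leaf 46 112320)) (.node (.node (.leaf 47 110170) (.leaf 47 108079)) (.leaf 48 106045))) (.node (.node (.node (.leaf 49 104045) (.leaf 50 102080)) (.leaf 51 100150)) (.node (.leaf 52 98256) (.leaf 53 96396)))) (.node (.node (.node (.node (.leaf 54 94572) (.leaf 56 92768)) (.leaf 57 90984)) (.node (.leaf 58 89237) (.leaf 59 87527))) (.node (.node (.leaf 60 85854) (.leaf 61 84217)) (.node (.leaf 63 82602) (.leaf 64 81011)))))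
def g30 : BT := (.node (.node (.node (.node (.leaf 65 79457) (.leaf 66 77937)) (.node (.leaf 68 76442) (.leaf 69 74971))) (.node (.node (.leaf 70 73536) (.leaf 72 72124)) (.node (.leaf 73 70738) (.leaf 75 69379)))) (.node (.node (.node (.leaf 76 68048) (.leaf 78 66741)) (.node (.leaf 79 65460) (.leaf 81 64203))) (.node (.node (.leaf 83 62965) (.leaf 84 61752)) (.leaf 86 60564))))
def g31 : BT := .node g29 g30
def g32 : BT := .node g28 g31
def g33 : BT := (.node (.node (.node (.node (.node (.leaf 88 59394) (.leaf 89 58250)) (.leaf 91 57130)) (.node (.node (.leaf 93 56030) (.leaf 95 54948)) (.leaf 97 53885))) (.node (.node (.node (.leaf 99 52842) (.leaf 101 51818)) (.leaf 103 50814)) (.node (.leaf 105 49829) (.leaf 107 48864)))) (.node (.node (.node (.node (.leaf 109 47919) (.leaf 111 46992)) (.leaf 113 46085)) (.node (.leaf 116 45193) (.leaf 118 44316))) (.node (.node (.leaf 120 43459) (.leaf 123 42617)) (.node (.leaf 125 41791) (.leaf 128 40980)))))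
def g34 : BT := (.node (.node (.node (.node (.leaf 130 40185) (.leaf 133 39406)) (.node (.leaf 135 38642) (.leaf 138 37894))) (.node (.node (.leaf 141 37158) (.leaf 144 36436)) (.node (.leaf 147 35727) (.leaf 150 35031)))) (.node (.node (.node (.leaf 153 34348) (.leaf 156 33679)) (.node (.leaf 159 33023) (.leaf 162 32380))) (.node (.node (.leaf 165 31750) (.leaf 168 31134)) (.leaf 172 30528))))
def g35 : BT := .node g33 g34
def g36 : BT := .node g32 g35
def g37 : BT := (.node (.node (.node (.node (.node (.leaf 175 29934) (.leaf 179 29351)) (.leaf 182 28780)) (.node (.node (.leaf 186 28219) (.leaf 190 27669)) (.leaf 194 27129))) (.node (.node (.node (.leaf 197 26599) (.leaf 201 26082)) (.leaf 205 25574)) (.node (.leaf 209 25076) (.leaf 214 24586)))) (.node (.node (.node (.node (.leaf 218 24106) (.leaf 222 23636)) (.leaf 227 23174)) (.node (.leaf 231 22721) (.leaf 236 22277))) (.node (.node (.leaf 241 21842) (.leaf 245 21415)) (.node (.leaf 250 20999) (.leaf 255 20592)))))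
def g38 : BT := (.node (.node (.node (.node (.leaf 260 20194) (.leaf 266 19802)) (.node (.leaf 271 19418) (.leaf 276 19041))) (.node (.node (.leaf 282 18672) (.leaf 288 18310)) (.node (.leaf 293 17955) (.leaf 299 17607)))) (.node (.node (.node (.leaf 305 17266) (.leaf 311 16931)) (.node (.leaf 317 16603) (.leaf 324 16281))) (.node (.node (.leaf 330 15965) (.leaf 337 15656)) (.leaf 344 15352))))
def g39 : BT := .node g37 g38
def g40 : BT := .node g36 g39
def g41 : BT := (.node (.node (.node (.node (.node (.leaf 350 15054) (.leaf 357 14763)) (.leaf 365 14477)) (.node (.node (.leaf 372 14196) (.leaf 379 13921)) (.leaf 387 13651))) (.node (.node (.node (.leaf 395 13386) (.leaf 403 13126)) (.leaf 411 12872)) (.node (.leaf 419 12622) (.leaf 427 12378)))) (.node (.node (.node (.node (.leaf 436 12138) (.leaf 444 11903)) (.leaf 453 11672)) (.node (.leaf 462 11446) (.leaf 472 11224))) (.node (.node (.leaf 481 11007) (.leaf 491 10794)) (.node (.leaf 501 10585) (.leaf 511 10381)))))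
def g42 : BT := (.node (.node (.node (.node (.leaf 521 10181) (.leaf 531 9985)) (.node (.leaf 542 9793) (.leaf 553 9605))) (.node (.node (.leaf 564 9420) (.leaf 575 9239)) (.node (.leaf 587 9062) (.leaf 598 8887)))) (.node (.node (.node (.leaf 610 8717) (.leaf 622 8550)) (.node (.leaf 635 8386) (.leaf 648 8225))) (.node (.node (.leaf 661 8067) (.leaf 674 7912)) (.leaf 687 7760))))
def g43 : BT := .node g41 g42
def g44 : BT := .node g40 g43
def g45 : BT := (.node (.node (.node (.node (.node (.leaf 701 7612) (.leaf 715 7466)) (.leaf 729 7323)) (.node (.node (.leaf 744 7183) (.leaf 759 7045)) (.leaf 774 6911))) (.node (.node (.node (.leaf 789 6778) (.leaf 805 6649)) (.leaf 821 6522)) (.node (.leaf 838 6397) (.leaf 854 6275)))) (.node (.node (.node (.node (.leaf 872 6156) (.leaf 889 6038)) (.leaf 907 5923)) (.node (.leaf 925 5810) (.leaf 943 5700))) (.node (.node (.leaf 962 5591) (.leaf 981 5485)) (.node (.leaf 1001 5380) (.leaf 1021 5277)))))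
def g46 : BT := (.node (.node (.node (.node (.leaf 1042 5176) (.leaf 1062 5076)) (.node (.leaf 1084 4979) (.leaf 1105 4884))) (.node (.node (.leaf 1127 4790) (.leaf 1150 4698)) (.node (.leaf 1173 4608) (.leaf 1196 4520)))) (.node (.node (.node (.leaf 1220 4434) (.leaf 1245 4349)) (.node (.leaf 1270 4266) (.leaf 1295 4184))) (.node (.node (.leaf 1321 4105) (.leaf 1347 4026)) (.leaf 1374 3949))))
def g47 : BT := .node g45 g46
def g48 : BT := .node g44 g47
def g49 : BT := (.node (.node (.node (.node (.node (.leaf 1402 3874) (.leaf 1430 3800)) (.leaf 1458 3728)) (.node (.node (.leaf 1488 3657) (.leaf 1517 3586)) (.leaf 1548 3517))) (.node (.node (.node (.leaf 1579 3448) (.leaf 1610 3382)) (.leaf 1642 3316)) (.node (.leaf 1675 3252) (.leaf 1709 3189)))) (.node (.node (.node (.node (.leaf 1743 3127) (.leaf 1778 3067)) (.leaf 1813 3008)) (.node (.leaf 1850 2950) (.leaf 1887 2893))) (.node (.node (.leaf 1924 2837) (.leaf 1963 2782)) (.node (.leaf 2002 2728) (.leaf 2042 2674)))))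
def g50 : BT := (.node (.node (.node (.node (.leaf 2083 2621) (.leaf 2125 2570)) (.node (.leaf 2167 2519) (.leaf 2210 2470))) (.node (.node (.leaf 2255 2421) (.leaf 2300 2373)) (.node (.leaf 2346 2327) (.leaf 2393 2281)))) (.node (.node (.node (.leaf 2441 2236) (.leaf 2489 2192)) (.node (.leaf 2539 2147) (.leaf 2590 2103))) (.node (.node (.leaf 2642 2061) (.leaf 2695 2019)) (.leaf 2748 1978))))
def g51 : BT := .node g49 g50
def g52 : BT := .node g48 g51
def g53 : BT := (.node (.node (.node (.node (.node (.leaf 2803 1937) (.leaf 2859 1898)) (.leaf 2917 1859)) (.node (.node (.leaf 2975 1821) (.leaf 3035 1784)) (.leaf 3095 1747))) (.node (.node (.node (.leaf 3157 1711) (.leaf 3220 1676)) (.leaf 3285 1642)) (.node (.leaf 3350 1608) (.leaf 3417 1575)))) (.node (.node (.node (.node (.leaf 3486 1542) (.leaf 3555 1510)) (.leaf 3627 1479)) (.node (.leaf 3699 1449) (.leaf 3773 1417))) (.node (.node (.leaf 3848 1387) (.leaf 3925 1356)) (.node (.leaf 4004 1326) (.leaf 4084 1297)))))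
def g54 : BT := (.node (.node (.node (.node (.leaf 4166 1269) (.leaf 4249 1241)) (.node (.leaf 4334 1213) (.leaf 4421 1186))) (.node (.node (.leaf 4509 1160) (.leaf 4599 1134)) (.node (.leaf 4691 1109) (.leaf 4785 1084)))) (.node (.node (.node (.leaf 4881 1059) (.leaf 4978 1035)) (.node (.leaf 5078 1011) (.leaf 5180 986))) (.node (.node (.leaf 5283 963) (.leaf 5389 939)) (.leaf 5497 917))))
def g55 : BT := .node g53 g54
def g56 : BT := .node g52 g55
def g57 : BT := (.node (.node (.node (.node (.node (.leaf 5607 894) (.leaf 5719 872)) (.leaf 5833 851)) (.node (.node (.leaf 5950 830) (.leaf 6069 809)) (.leaf 6190 789))) (.node (.node (.node (.leaf 6314 768) (.leaf 6440 749)) (.leaf 6569 729)) (.node (.node (.leaf 6700 710) (.leaf 6834 691)) (.leaf 6971 673)))) (.node (.node (.node (.node (.leaf 7110 655) (.leaf 7253 637)) (.leaf 7398 620)) (.node (.leaf 7546 603) (.leaf 7697 585))) (.node (.node (.leaf 7851 568) (.leaf 8008 552)) (.node (.leaf 8168 535) (.leaf 8331 519)))))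
def g58 : BT := (.node (.node (.node (.node (.leaf 8498 504) (.leaf 8668 488)) (.node (.leaf 8841 469) (.leaf 9018 450))) (.node (.node (.leaf 9198 432) (.leaf 9382 414)) (.node (.leaf 9570 396) (.leaf 9761 379)))) (.node (.node (.node (.leaf 9956 361) (.leaf 10156 338)) (.leaf 10359 317)) (.node (.node (.leaf 10566 295) (.leaf 10777 274)) (.node (.leaf 10993 254) (.leaf 2386 241)))))
def g59 : BT := .node g57 g58
def g60 : BT := .node g56 g59
def g : BT := g60

/-! the profile `φ` -/

def p0 : BT := (.node (.node (.node (.leaf 1311 5530) (.leaf 1234 5654)) (.node (.leaf 1158 5783) (.leaf 1081 5917))) (.node (.node (.leaf 1006 6058) (.node (.leaf 931 6205) (.leaf 857 6360))) (.node (.node (.leaf 783 6524) (.leaf 710 6696)) (.node (.leaf 638 6880) (.leaf 567 7075)))))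
def p1 : BT := (.node (.node (.node (.node (.leaf 497 7286) (.node (.leaf 429 7513) (.leaf 362 7761))) (.node (.node (.leaf 299 8034) (.node (.leaf 238 8339) (.leaf 182 8687))) (.node (.node (.leaf 130 9091) (.leaf 86 9578)) (.leaf 505 10097)))) (.node (.node (.leaf 732 10264) (.leaf 814 10432)) (.leaf 876 10591))) (.node (.node (.node (.leaf 926 10744) (.leaf 970 10893)) (.leaf 1009 11037)) (.node (.leaf 1045 11178) (.leaf 1079 11316))))
def p2 : BT := .node p0 p1
def p3 : BT := (.node (.node (.node (.node (.leaf 1111 11451) (.leaf 1141 11583)) (.node (.leaf 1171 11713) (.leaf 1199 11841))) (.node (.node (.leaf 1227 11967) (.leaf 1254 12091)) (.node (.leaf 1280 12212) (.leaf 1307 12333)))) (.node (.node (.node (.leaf 1333 12451) (.leaf 1359 12568)) (.node (.leaf 1384 12683) (.leaf 1410 12796))) (.node (.node (.leaf 1436 12908) (.leaf 1461 13019)) (.leaf 1487 13128))))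
def p4 : BT := .node p2 p3
def p5 : BT := (.node (.node (.node (.node (.node (.leaf 1513 13235) (.leaf 1539 13341)) (.leaf 1566 13446)) (.node (.node (.leaf 1593 13549) (.leaf 1620 13651)) (.leaf 1648 13752))) (.node (.node (.node (.leaf 1676 13851) (.leaf 1705 13949)) (.leaf 1734 14046)) (.node (.node (.leaf 1764 14141) (.leaf 1795 14235)) (.leaf 1827 14328)))) (.node (.node (.node (.node (.leaf 1859 14419) (.leaf 1893 14509)) (.leaf 1928 14598)) (.node (.leaf 1964 14685) (.leaf 2002 14771))) (.node (.node (.node (.leaf 2041 14856) (.leaf 2082 14939)) (.leaf 2124 15021)) (.node (.leaf 2169 15101) (.leaf 2216 15180)))))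
def p6 : BT := .node p4 p5
def p7 : BT := (.node (.node (.node (.node (.node (.leaf 2265 15257) (.leaf 2317 15333)) (.node (.leaf 2373 15407) (.leaf 2432 15480))) (.node (.node (.leaf 2495 15551) (.leaf 2563 15621)) (.node (.leaf 2636 15688) (.leaf 2715 15754)))) (.node (.node (.node (.leaf 2802 15818) (.leaf 2897 15880)) (.leaf 3002 15940)) (.node (.node (.leaf 3119 15997) (.leaf 3252 16052)) (.leaf 3405 16105)))) (.node (.node (.node (.node (.leaf 3581 16155) (.leaf 3792 16202)) (.leaf 4050 16246)) (.node (.leaf 4377 16285) (.leaf 4818 16321))) (.node (.node (.leaf 5472 16351) (.leaf 6670 16373)) (.leaf 8953 16383))))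
def p8 : BT := .node p6 p7
def p9 : BT := (.node (.node (.node (.node (.leaf 6731 16373) (.leaf 5641 16351)) (.node (.leaf 5059 16323) (.leaf 4673 16290))) (.node (.node (.leaf 4391 16253) (.leaf 4173 16213)) (.node (.leaf 3998 16171) (.node (.leaf 3853 16126) (.leaf 3730 16079))))) (.node (.node (.node (.leaf 3625 16030) (.node (.leaf 3534 15979) (.leaf 3454 15927))) (.node (.leaf 3383 15874) (.node (.leaf 3320 15818) (.leaf 3263 15762)))) (.node (.node (.leaf 3213 15704) (.node (.leaf 3167 15645) (.leaf 3125 15585))) (.node (.leaf 3087 15524) (.node (.leaf 3053 15462) (.leaf 3021 15399))))))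
def p10 : BT := (.node (.node (.node (.leaf 2992 15335) (.node (.leaf 2965 15270) (.leaf 2941 15205))) (.node (.node (.leaf 2919 15138) (.leaf 2898 15071)) (.node (.leaf 2880 15002) (.leaf 2863 14933)))) (.node (.node (.node (.leaf 2847 14863) (.leaf 2833 14793)) (.node (.leaf 2820 14721) (.leaf 2809 14649))) (.node (.node (.leaf 2798 14577) (.leaf 2789 14503)) (.node (.leaf 2781 14429) (.leaf 2774 14354)))))
def p11 : BT := (.node (.node (.node (.node (.leaf 2767 14279) (.leaf 2763 14202)) (.node (.leaf 2758 14125) (.leaf 2755 14048))) (.node (.node (.leaf 2752 13970) (.leaf 2751 13891)) (.node (.leaf 2750 13812) (.leaf 2750 13731)))) (.node (.node (.node (.leaf 2751 13651) (.leaf 2752 13569)) (.node (.leaf 2755 13487) (.leaf 2758 13405))) (.node (.node (.leaf 2762 13321) (.leaf 2767 13237)) (.leaf 2772 13153))))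
def p12 : BT := .node p10 p11
def p13 : BT := .node p9 p12
def p14 : BT := .node p8 p13
def p15 : BT := (.node (.node (.node (.node (.leaf 2779 13068) (.leaf 2785 12982)) (.node (.leaf 2794 12895) (.leaf 2802 12808))) (.node (.node (.leaf 2812 12720) (.leaf 2822 12632)) (.leaf 2833 12542))) (.node (.node (.node (.leaf 2845 12453) (.leaf 2857 12362)) (.node (.leaf 2871 12271) (.leaf 2886 12179))) (.node (.node (.leaf 2901 12086) (.leaf 2918 11993)) (.leaf 2935 11899))))
def p16 : BT := (.node (.node (.node (.node (.leaf 2954 11804) (.leaf 2973 11708)) (.node (.leaf 2994 11612) (.leaf 3015 11514))) (.node (.node (.leaf 3038 11416) (.leaf 3062 11318)) (.leaf 3087 11218))) (.node (.node (.node (.leaf 3114 11117) (.leaf 3142 11016)) (.leaf 3172 10913)) (.node (.node (.leaf 3203 10810) (.leaf 3235 10706)) (.leaf 3270 10600))))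
def p17 : BT := .node p15 p16
def p18 : BT := (.node (.node (.node (.node (.node (.leaf 3306 10494) (.leaf 3344 10387)) (.leaf 3384 10278)) (.node (.node (.leaf 3425 10169) (.leaf 3470 10058)) (.leaf 3516 9946))) (.node (.node (.node (.leaf 3566 9833) (.leaf 3618 9719)) (.leaf 3672 9603)) (.node (.leaf 3730 9486) (.leaf 3790 9367)))) (.node (.node (.node (.node (.leaf 3854 9247) (.leaf 3922 9126)) (.leaf 3994 9003)) (.node (.leaf 4070 8878) (.leaf 4151 8751))) (.node (.node (.node (.leaf 4237 8622) (.leaf 4328 8492)) (.leaf 4426 8359)) (.node (.leaf 4529 8225) (.leaf 4640 8088)))))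
def p19 : BT := .node p17 p18
def p20 : BT := (.node (.node (.node (.node (.node (.leaf 4757 7948) (.leaf 4884 7807)) (.node (.leaf 5019 7662) (.leaf 5164 7515))) (.node (.node (.leaf 5319 7365) (.leaf 5486 7212)) (.node (.leaf 5664 7055) (.leaf 5857 6895)))) (.node (.node (.node (.leaf 6063 6732) (.leaf 6285 6565)) (.leaf 6523 6393)) (.node (.node (.leaf 6775 6218) (.leaf 7041 6037)) (.leaf 7298 5851)))) (.node (.node (.node (.node (.leaf 7589 5657) (.leaf 7902 5457)) (.leaf 8245 5252)) (.node (.leaf 8606 5041) (.leaf 8978 4827))) (.node (.node (.leaf 9354 4609) (.leaf 9726 4389)) (.node (.leaf 10084 4168) (.leaf 10418 3947)))))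
def p21 : BT := .node p19 p20
def p22 : BT := .node p14 p21
def p23 : BT := (.node (.node (.node (.node (.node (.leaf 10718 3727) (.leaf 10978 3510)) (.leaf 11194 3298)) (.node (.node (.leaf 11366 3092) (.leaf 11497 2893)) (.leaf 11593 2702))) (.node (.node (.node (.leaf 11660 2519) (.leaf 11704 2345)) (.leaf 11732 2179)) (.node (.leaf 11747 2015) (.node (.leaf 11742 1771) (.leaf 732 897))))) (.leaf 525258 0))
def p24 : BT := .node p22 p23
def p : BT := p24

/-! the approximation of the inner sum -/

def h0 : BT := (.node (.leaf 500667 0) (.leaf 173821 12325))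
def h1 : BT := (.node (.node (.node (.leaf 27126 13929) (.leaf 18704 15097)) (.node (.leaf 13848 15968) (.node (.leaf 12527 16684) (.leaf 10657 17318)))) (.node (.node (.node (.leaf 9067 17837) (.leaf 8390 18331)) (.node (.leaf 8028 18772) (.node (.leaf 6741 19181) (.leaf 6488 19561)))) (.node (.node (.leaf 6648 19925) (.node (.leaf 6065 20278) (.leaf 5559 20605))) (.node (.node (.leaf 5101 20909) (.leaf 4937 21198)) (.leaf 5233 21488)))))
def h2 : BT := (.node (.node (.node (.node (.leaf 4991 21775) (.leaf 4760 22051)) (.node (.leaf 4572 22315) (.leaf 4402 22570))) (.node (.node (.leaf 4249 22816) (.leaf 4105 23052)) (.node (.leaf 3972 23282) (.node (.leaf 3860 23504) (.leaf 3756 23719))))) (.node (.node (.node (.leaf 3835 23934) (.leaf 3869 24150)) (.node (.leaf 3788 24364) (.node (.leaf 3715 24573) (.leaf 3658 24778)))) (.node (.node (.leaf 3587 24979) (.leaf 3539 25175)) (.node (.leaf 3484 25368) (.node (.leaf 3429 25557) (.leaf 3393 25743))))))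
def h3 : BT := (.node (.node (.node (.node (.leaf 3345 25925) (.node (.leaf 3302 26104) (.leaf 3264 26280))) (.node (.leaf 3221 26453) (.node (.leaf 3189 26623) (.leaf 3147 26789)))) (.node (.node (.leaf 3103 26952) (.node (.leaf 3068 27112) (.leaf 3038 27269))) (.node (.leaf 3248 27431) (.node (.leaf 3231 27594) (.leaf 3216 27755))))) (.node (.node (.node (.leaf 3186 27912) (.node (.leaf 3172 28068) (.leaf 3148 28221))) (.node (.leaf 3121 28371) (.node (.leaf 3089 28517) (.leaf 3044 28662)))) (.node (.node (.node (.leaf 2995 28801) (.leaf 2932 28937)) (.leaf 3127 29075)) (.node (.leaf 3312 29218) (.node (.leaf 3292 29360) (.leaf 3241 29498))))))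
def h4 : BT := .node h2 h3
def h5 : BT := .node h1 h4
def h6 : BT := (.node (.node (.node (.node (.leaf 3169 29633) (.node (.leaf 3080 29763) (.leaf 2961 29886))) (.node (.leaf 3414 30016) (.node (.leaf 3528 30148) (.leaf 3388 30277)))) (.node (.node (.node (.leaf 3221 30400) (.leaf 3097 30516)) (.leaf 3917 30639)) (.node (.leaf 3630 30763) (.leaf 3288 30878)))) (.node (.node (.node (.leaf 3915 30996) (.node (.leaf 3968 31110) (.leaf 3347 31218))) (.node (.leaf 4747 31331) (.leaf 3682 31439))) (.node (.node (.leaf 5098 31549) (.leaf 4620 31660)) (.node (.leaf 4688 31753) (.leaf 5898 31854)))))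
def h7 : BT := (.node (.node (.node (.node (.leaf 6543 31956) (.leaf 7900 32050)) (.leaf 6819 32122)) (.node (.leaf 6638 32165) (.node (.leaf 5664 32186) (.leaf 5783 32183)))) (.node (.node (.node (.leaf 5522 32164) (.leaf 5124 32130)) (.node (.leaf 4648 32085) (.leaf 4411 32028))) (.node (.node (.leaf 4196 31963) (.leaf 4009 31889)) (.node (.node (.leaf 3470 31816) (.leaf 3603 31736)) (.leaf 3518 31642)))))
def h8 : BT := .node h6 h7
def h9 : BT := (.node (.node (.node (.leaf 3037 31557) (.node (.leaf 3028 31461) (.leaf 3003 31368))) (.node (.node (.leaf 2801 31268) (.leaf 2705 31169)) (.node (.leaf 2567 31065) (.leaf 2601 30964)))) (.node (.node (.node (.leaf 2384 30861) (.leaf 2407 30748)) (.node (.leaf 2365 30645) (.leaf 2152 30530))) (.node (.node (.leaf 2301 30423) (.leaf 2001 30308)) (.node (.leaf 2236 30196) (.node (.leaf 1905 30081) (.leaf 2160 29964))))))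
def h10 : BT := (.node (.node (.node (.node (.leaf 1809 29847) (.leaf 2089 29727)) (.node (.leaf 1747 29606) (.node (.leaf 2014 29485) (.leaf 1696 29360)))) (.node (.node (.leaf 1932 29240) (.node (.leaf 1659 29109) (.leaf 1845 28990))) (.node (.node (.leaf 1642 28854) (.leaf 1738 28737)) (.leaf 1646 28597)))) (.node (.node (.node (.leaf 1590 28481) (.node (.leaf 1689 28338) (.leaf 1440 28218))) (.node (.leaf 1741 28079) (.node (.leaf 1433 27944) (.leaf 1647 27813)))) (.node (.node (.node (.leaf 1443 27668) (.leaf 1524 27543)) (.leaf 1484 27393)) (.node (.leaf 1321 27272) (.node (.leaf 1597 27122) (.leaf 1311 26982))))))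
def h11 : BT := .node h9 h10
def h12 : BT := (.node (.node (.node (.leaf 1515 26845) (.node (.leaf 1332 26693) (.leaf 1380 26563))) (.node (.node (.leaf 1393 26406) (.leaf 1216 26276)) (.node (.leaf 1474 26125) (.leaf 1234 25973)))) (.node (.node (.node (.leaf 1359 25836) (.leaf 1276 25674)) (.node (.leaf 1171 25544) (.leaf 1389 25384))) (.node (.node (.leaf 1155 25233) (.leaf 1316 25088)) (.node (.leaf 1193 24923) (.leaf 1153 24787)))))
def h13 : BT := (.node (.node (.node (.node (.leaf 1284 24621) (.leaf 1093 24470)) (.node (.leaf 1263 24319) (.leaf 1128 24150))) (.node (.node (.leaf 1111 24010) (.leaf 1211 23838)) (.node (.leaf 1039 23685) (.leaf 1204 23529)))) (.node (.node (.node (.leaf 1074 23356) (.leaf 1056 23212)) (.node (.leaf 1154 23036) (.leaf 992 22878))) (.node (.node (.leaf 1142 22718) (.leaf 1026 22540)) (.node (.leaf 995 22393) (.node (.leaf 1107 22213) (.leaf 947 22048))))))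
def h14 : BT := .node h12 h13
def h15 : BT := (.node (.node (.node (.node (.leaf 1080 21886) (.leaf 982 21702)) (.node (.leaf 932 21551) (.node (.leaf 1065 21368) (.leaf 905 21196)))) (.node (.node (.leaf 1017 21030) (.leaf 940 20842)) (.node (.leaf 869 20687) (.node (.leaf 1024 20499) (.leaf 863 20320))))) (.node (.node (.node (.leaf 957 20151) (.leaf 897 19957)) (.node (.node (.leaf 811 19798) (.leaf 979 19606)) (.leaf 819 19418))) (.node (.node (.leaf 899 19245) (.node (.leaf 850 19045) (.leaf 763 18881))) (.node (.leaf 925 18684) (.node (.leaf 772 18490) (.leaf 846 18311))))))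
def h16 : BT := (.node (.node (.node (.node (.leaf 797 18104) (.leaf 727 17934)) (.leaf 857 17729)) (.node (.node (.leaf 719 17531) (.leaf 799 17344)) (.leaf 737 17131))) (.node (.node (.leaf 700 16952) (.node (.leaf 775 16738) (.leaf 661 16540))) (.node (.node (.leaf 752 16340) (.leaf 666 16121)) (.node (.leaf 678 15930) (.leaf 682 15704)))))
def h17 : BT := (.node (.node (.node (.node (.leaf 596 15510) (.leaf 702 15290)) (.node (.leaf 588 15068) (.leaf 645 14859))) (.node (.node (.leaf 582 14623) (.leaf 583 14418)) (.node (.leaf 578 14174) (.leaf 515 13964)))) (.node (.node (.node (.leaf 575 13719) (.leaf 477 13489)) (.node (.leaf 539 13246) (.node (.leaf 448 12996) (.leaf 485 12751)))) (.node (.node (.leaf 408 12486) (.node (.leaf 428 12230) (.leaf 356 11949))) (.node (.node (.leaf 362 11670) (.leaf 285 11372)) (.node (.leaf 267 11047) (.node (.leaf 188 10695) (.leaf 12 10456)))))))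
def h18 : BT := .node h16 h17
def h19 : BT := .node h15 h18
def h20 : BT := .node h14 h19
def h21 : BT := .node h11 h20
def h22 : BT := .node h8 h21
def h23 : BT := .node h5 h22
def h24 : BT := .node h0 h23
def h : BT := h24

def t : BT := .node g (.leaf 739017 0)

def th : BT := .node h (.leaf 12511 0)

def ops : List (Bool × ℕ) := [(false, 50), (false, 50), (true, 50), (false, 50), (false, 50), (false, 50), (false, 50), (true, 50), (false, 50), (false, 50), (true, 50), (false, 49), (true, 50), (false, 50), (false, 49), (true, 50)]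

end Pool.Agent.J4H32.HT.Dat
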