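import Pool.Agent.J4H32.HT.Xch
import Pool.Agent.J4H32.HT.Dat

/-! The kernel checks for the bad cells, and the side conditions. -/

set_option autoImplicit false

namespace Pool.Agent.J4H32.HT

open Pool.Agent.H358R5 (BT)

set_option maxRecDepth 100000 in
theorem cert_b : chkBX (BT.node Dat.g (BT.leaf 739017 0)) Dat.p 228 125 (55053 + 125) 2605
    102929922792299523823632385 (etot Dat.ops 0) = true := by
  decide +kernel

set_option maxRecDepth 100000 in
theorem cert_b' : chkBX (BT.node Dat.g (BT.leaf 739017 0)) Dat.p 2502 2502 (327813 + 2502) 2605
    8172352715376446966329161809921 (etot Dat.ops 0) = true := by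
  decide +kernel

theorem cert_len : Nat.beq (BT.node Dat.g (BT.leaf 739017 0)).len 1302053 = true := by decide +kernel

theorem cert_lg : Nat.beq Dat.g.len 563036 = true := by decide +kernel

theorem cert_lh : Nat.beq Dat.h.len 1289542 = true := by decide +kernel

end Pool.Agent.J4H32.HT
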