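import Pool.Agent.J4H32.HT.Xch
import Pool.Agent.J4H32.HT.Dat

/-! The kernel check of the certificate. -/

set_option autoImplicit false

namespace Pool.Agent.J4H32.HT

open Pool.Agent.H358R5 (BT)

set_option maxRecDepth 100000 in
theorem cert_x : chkX 100 (BT.node Dat.g (BT.leaf 739017 0)) Dat.p (BT.node Dat.h (BT.leaf 12511 0)) 30 21
    Dat.ops 50 2 2606 1251192 (102929922792299523823632385 + 8172352715376446966329161809921) = true := by
  decide +kernel

end Pool.Agent.J4H32.HT
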