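import Mathlib
import Pool.Agent.J4H32.HT.CertX
import Pool.Agent.J4H32.HT.CertB
import Pool.Agent.J4H35.ZZ.Main
import Pool.Agent.J4H35.CR.P2

/-! Three primes among 2606 shifts. -/

set_option autoImplicit false

namespace Pool.Agent.J4H32.HT

open Pool.Agent.H358R5 Pool.Agent.J4H35.CR Pool.Agent.J4H35.ZZ

theorem s_p23 : S_P23 := p23 s_zz3

theorem chyp : CHyp 2 2606 := by
  have h1 : (BT.node Dat.g (BT.leaf 739017 0)).len = 1302053 := Nat.eq_of_beq_eq_true cert_len
  have h2 : Dat.g.len = 563036 := Nat.eq_of_beq_eq_true cert_lg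
  have h3 : Dat.h.len = 1289542 := Nat.eq_of_beq_eq_true cert_lh
  refine chyp_of_chkX s_p23 100 Dat.g 739017 Dat.p Dat.h 12511 30 21 Dat.ops 50 2 2605 2606 1251192
    102929922792299523823632385 8172352715376446966329161809921 228 125 55053
    2502 2502 327813 (by norm_num) (by norm_num) (by norm_num) (by norm_num) (by norm_num)
    (by norm_num) (by norm_num) ?_ ?_ ?_ ?_ ?_ (by norm_num) (by norm_num) (by norm_num) (by norm_num)
    cert_b cert_b' cert_x
  · rw [h1]; norm_num
  · rw [h3]; norm_num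
  · rw [h1]; norm_num
  · rw [h1, h3]; norm_num
  · rw [h2]; norm_num

end Pool.Agent.J4H32.HT
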