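import Pool.Agent.J4H32.HT.Fin
import Pool.Agent.J4H32.HT.TupC
import Pool.Agent.H358R5.CONS
import Pool.Agent.H358R5.PAT
import Pool.Agent.H358R5.GAPS

/-! Three primes among 2606 shifts: consecutive primes, patterns, gaps. -/

set_option autoImplicit false

open Finset Filter

namespace Pool.Agent.J4H32.HT

open Pool.Agent.H358R5

theorem tup3' : ∃ h : Fin 2606 → ℕ, Adm h ∧ ∀ i, h i ≤ 22964 := by
  obtain ⟨h, hA, hle⟩ := tup3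
  exact ⟨h, ⟨hA.1, hA.2⟩, hle⟩

theorem gaps3 (ε : ℝ) (hε : 0 < ε) : ∀ᶠ x : ℝ in atTop,
    x ^ (1 - ε) ≤ (Set.ncard {k : ℕ | (Nat.nth Nat.Prime k : ℝ) ≤ x ∧
      Nat.nth Nat.Prime (k + 2) ≤ Nat.nth Nat.Prime k + 22964} : ℝ) :=
  GAPS_proof 2 2606 22964 (by norm_num) chyp tup3' ε hε

theorem consecutive (a : Fin 2606 → ℤ) (ha : Function.Injective a)
    (hadm : ∀ p : ℕ, p.Prime → ∃ r : ℤ, ∀ i, ¬ (p : ℤ) ∣ r + a i) (ε : ℝ) (hε : 0 < ε) :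
    ∀ᶠ x : ℝ in atTop, x ^ (1 - ε) ≤ (Set.ncard {n : ℕ | 1 ≤ n ∧ (n : ℝ) ≤ x ∧
      3 ≤ Set.ncard {i : Fin 2606 | ∃ p : ℕ, p.Prime ∧ (p : ℤ) = n + a i} ∧
      ∀ p : ℕ, p.Prime → (∃ i j, (n : ℤ) + a i ≤ p ∧ (p : ℤ) ≤ n + a j) → ∃ i, (p : ℤ) = n + a i} : ℝ) :=
  CONS_proof 2 2606 (by norm_num) chyp a ha hadm ε hε

/-- among any 2606 admissible shifts there is a pattern of three realised by consecutive primes -/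
theorem pattern3 (H : Finset ℤ) (hK : 2606 ≤ H.card)
    (hadm : ∀ p : ℕ, p.Prime → ∃ r : ℤ, ∀ h ∈ H, ¬ (p : ℤ) ∣ r + h) :
    ∃ S : Finset ℤ, S ⊆ H ∧ S.card = 3 ∧ ∀ ε : ℝ, 0 < ε → ∃ᶠ x : ℝ in atTop,
      x ^ (1 - ε) ≤ (Set.ncard {n : ℕ | (n : ℝ) ≤ x ∧ (∀ s ∈ S, ∃ p : ℕ, p.Prime ∧ (p : ℤ) = n + s) ∧
        ∀ p : ℕ, p.Prime → (∃ s ∈ S, ∃ t ∈ S, (n : ℤ) + s ≤ p ∧ (p : ℤ) ≤ n + t) →
          ∃ s ∈ S, (p : ℤ) = n + s} : ℝ) := by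
  obtain ⟨H', hH', hc⟩ := Finset.exists_subset_card_eq hK
  obtain ⟨S, hS, hS3, h⟩ := PAT_proof CONS_proof 2 2606 (by norm_num) chyp H' hc
    (fun p hp => (hadm p hp).imp fun r hr h hh => hr h (hH' hh))
  exact ⟨S, hS.trans hH', hS3, h⟩

end Pool.Agent.J4H32.HT
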