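import Mathlib
import Pool.Agent.J4H32.HT.Bad
import Pool.Agent.H358R5.HPL
import Pool.Agent.H358R5.SEGP
import Pool.Agent.H358R5.SOUNDP
import Pool.Agent.H358R5.INVMUL
import Pool.Agent.H358R5.INIT
import Pool.Agent.H358R5.MULS
import Pool.Agent.H358R5.REP
import Pool.Agent.H358R5.CONVA
import Pool.Agent.H358R5.SMV

/-! The certificate check with the absolute scale and a term for the bad cells. -/

set_option autoImplicit false

open Finset Filter

namespace Pool.Agent.J4H32.HT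

open Pool.Agent.H358R5 Pool.Agent.J4H35.CR

/-- the scale after a chain of multiplications -/
def etot : List (Bool × ℕ) → ℕ → ℕ
  | [], e => e
  | (false, t) :: L, e => etot L (e + e + t)
  | (true, t) :: L, e => etot L (e + 0 + t)

theorem SOUND_goE (h1 : S_INVMUL) (G : ℕ → ℕ) (w n1 X1 S1 : ℕ) (f : ℕ → ℕ → ℕ → ℕ → Bool)
    (hw : 0 < w) (h0 : Inv G w n1 1 X1 S1 0 0) : ∀ (L : List (Bool × ℕ)) (n X S E e : ℕ),
    Inv G w n1 n X S E e → go w n1 X1 S1 f L n X S E = true →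
    ∃ n' X' S' E', f n' X' S' E' = true ∧ Inv G w n1 n' X' S' E' (etot L e) := by
  intro L
  induction L with
  | nil =>
    intro n X S E e hI hg
    exact ⟨n, X, S, E, hg, hI⟩
  | cons p L ih =>
    intro n X S E e hI hg
    obtain ⟨b, t⟩ := p
    cases b with
    | false =>
      simp only [go, Bool.and_eq_true] at hg
      obtain ⟨hg1, hg2, hg3⟩ := hg
      have hS : S * S < 2 ^ w := by
        have := Nat.blt_eq.mp hg1
        rwa [Nat.one_shiftLeft] at this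
      have ht : t ≤ w := Nat.le_of_ble_eq_true hg2
      have hI' := h1 G w n1 n X S E e n X S E e t hw ht hI hI hS
      have e1 : n + n = 2 * n := by ring
      have e2 : E * S + E * S + E * E * n1 = 2 * E * S + E * E * n1 := by ring
      rw [e1, e2] at hI'
      exact ih _ _ _ _ _ hI' hg3
    | true =>
      simp only [go, Bool.and_eq_true] at hg
      obtain ⟨hg1, hg2, hg3⟩ := hg
      have hS : S * S1 < 2 ^ w := by
        have := Nat.blt_eq.mp hg1
        rwa [Nat.one_shiftLeft] at this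
      have ht : t ≤ w := Nat.le_of_ble_eq_true hg2
      have hI' := h1 G w n1 n X S E e 1 X1 S1 0 0 t hw ht hI h0 hS
      have e2 : E * S1 + 0 * S + E * 0 * n1 = E * S1 := by ring
      rw [e2] at hI'
      exact ih _ _ _ _ _ hI' hg3

/-- the final check; `X1, S1` belong to the first power, `tK` is the shift of the last multiplication -/
def finH (w : ℕ) (t : BT) (P M : List (ℕ × ℕ)) (st : ST) (tK m K N1 D X1 S1 n X S E : ℕ) : Bool :=
  Nat.beq (n + 1) K && (Nat.blt (S + 1) (1 <<< w) && (Nat.blt (S * S1 / 2 ^ tK + 1) (1 <<< w) &&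
    (Nat.blt (S * S1) (1 <<< w) && (Nat.ble tK w && (Nat.beq st.len (t.len + 1) &&
      Nat.blt (4 * m * N1 *
          (st.denP w t.len ((E * S1) / 2 ^ tK + 2) P M (mulS w (t.len + 1) tK X X1) 0 * 2 ^ tK) + K * D)
        (K * st.numP w t.len t P M X 0))))))

/-- the certificate check -/
def chkH (w : ℕ) (t : BT) (P M : List (ℕ × ℕ)) (st : ST) (L : List (Bool × ℕ)) (tK m K N1 D : ℕ) : Bool :=
  go w (t.len + 1) ((t.pkt w) <<< w) (t.sm2 t.len)
    (finH w t P M st tK m K N1 D ((t.pkt w) <<< w) (t.sm2 t.len)) L 1 ((t.pkt w) <<< w) (t.sm2 t.len) 0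

theorem sound_chkH (w : ℕ) (t : BT) (P M : List (ℕ × ℕ)) (st : ST) (L : List (Bool × ℕ))
    (tK m K0 N1 D : ℕ) (hw : 0 < w) (hchk : chkH w t P M st L tK m (K0 + 1) N1 D = true) :
    4 * m * N1 * ∑ s ∈ range (t.len + 1), AG t.G (K0 + 1) s * phi P M (t.len - s) ^ 2 +
      (K0 + 1) * (D * 2 ^ etot L 0) <
    (K0 + 1) * ∑ s ∈ range (t.len + 1), AG t.G K0 s * HH t P M (t.len - s) ^ 2 := by
  have h1 := INVMUL_proof (MULS_proof REP_proof) CONVA_proof
  have h3 := INIT_proof REP_proof SMV_proof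
  have h4 := SEGP_proof HPL_proof
  unfold chkH at hchk
  have hI0 := h3 t w hw
  obtain ⟨n', X', S', E', hf, hI⟩ := SOUND_goE h1 t.G w (t.len + 1) _ _ _ hw
    hI0 L 1 _ _ 0 0 hI0 hchk
  simp only [finH, Bool.and_eq_true] at hf
  obtain ⟨hf1, hf2, hf3, hf4, hf5, hf6, hf7⟩ := hf
  have hn : n' = K0 := by
    have := Nat.eq_of_beq_eq_true hf1
    omega
  have hS : S' + 1 < 2 ^ w := by
    have := Nat.blt_eq.mp hf2
    rwa [Nat.one_shiftLeft] at this
  have hSK : S' * t.sm2 t.len / 2 ^ tK + 1 < 2 ^ w := by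
    have := Nat.blt_eq.mp hf3
    rwa [Nat.one_shiftLeft] at this
  have hSS : S' * t.sm2 t.len < 2 ^ w := by
    have := Nat.blt_eq.mp hf4
    rwa [Nat.one_shiftLeft] at this
  have htK : tK ≤ w := Nat.le_of_ble_eq_true hf5
  have hst : st.len = t.len + 1 := Nat.eq_of_beq_eq_true hf6
  have hlt := Nat.blt_eq.mp hf7
  subst hn
  generalize etot L 0 = e' at hI ⊢
  -- one more multiplication
  have hIK := h1 t.G w (t.len + 1) n' X' S' E' e' 1 _ _ 0 0 tK hw htK hI hI0 hSS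
  have e2 : E' * t.sm2 t.len + 0 * S' + E' * 0 * (t.len + 1) = E' * t.sm2 t.len := by ring
  rw [e2] at hIK
  obtain ⟨a, hX, haS, hab⟩ := hI
  obtain ⟨b, hXK, hbS, hbb⟩ := hIK
  set XK := mulS w (t.len + 1) tK X' ((t.pkt w) <<< w) with hXKd
  set EK := E' * t.sm2 t.len / 2 ^ tK + 2 with hEKd
  obtain ⟨hnum, -⟩ := h4 t P M st w t.len E' a hw hst (by omega)
  obtain ⟨-, hden⟩ := h4 t P M st w t.len EK b hw hst (by omega)
  rw [← hX] at hnum
  rw [← hXK] at hden
  have hup : ∑ s ∈ range (t.len + 1), AG t.G (n' + 1) s * phi P M (t.len - s) ^ 2 ≤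
      2 ^ (e' + tK) * ∑ s ∈ range (t.len + 1), (b s + EK) * phi P M (t.len - s) ^ 2 := by
    rw [Finset.mul_sum]
    apply Finset.sum_le_sum
    intro s hs
    have h5 := (hbb s (Finset.mem_range.mp hs)).2
    rw [add_zero] at h5
    calc AG t.G (n' + 1) s * phi P M (t.len - s) ^ 2
        ≤ ((b s + EK) * 2 ^ (e' + tK)) * phi P M (t.len - s) ^ 2 :=
          Nat.mul_le_mul_right _ h5
      _ = 2 ^ (e' + tK) * ((b s + EK) * phi P M (t.len - s) ^ 2) := by ring
  have hlow : 2 ^ e' * ∑ s ∈ range (t.len + 1), a s * HH t P M (t.len - s) ^ 2 ≤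
      ∑ s ∈ range (t.len + 1), AG t.G n' s * HH t P M (t.len - s) ^ 2 := by
    rw [Finset.mul_sum]
    apply Finset.sum_le_sum
    intro s hs
    have h5 := (hab s (Finset.mem_range.mp hs)).1
    calc 2 ^ e' * (a s * HH t P M (t.len - s) ^ 2)
        = (a s * 2 ^ e') * HH t P M (t.len - s) ^ 2 := by ring
      _ ≤ AG t.G n' s * HH t P M (t.len - s) ^ 2 := Nat.mul_le_mul_right _ h5
  have hpos : 0 < 2 ^ e' := by positivity
  calc 4 * m * N1 *
        ∑ s ∈ range (t.len + 1), AG t.G (n' + 1) s * phi P M (t.len - s) ^ 2 + (n' + 1) * (D * 2 ^ e')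
      ≤ 4 * m * N1 *
        (2 ^ (e' + tK) * ∑ s ∈ range (t.len + 1), (b s + EK) * phi P M (t.len - s) ^ 2) +
          (n' + 1) * (D * 2 ^ e') :=
        Nat.add_le_add_right (Nat.mul_le_mul_left _ hup) _
    _ ≤ 4 * m * N1 * (2 ^ (e' + tK) * st.denP w t.len EK P M XK 0) + (n' + 1) * (D * 2 ^ e') :=
        Nat.add_le_add_right (Nat.mul_le_mul_left _ (Nat.mul_le_mul_left _ hden)) _
    _ = 2 ^ e' * (4 * m * N1 * (st.denP w t.len EK P M XK 0 * 2 ^ tK) + (n' + 1) * D) := by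
        rw [pow_add]; ring
    _ < 2 ^ e' * ((n' + 1) * st.numP w t.len t P M X' 0) := Nat.mul_lt_mul_of_pos_left hlt hpos
    _ ≤ 2 ^ e' * ((n' + 1) * ∑ s ∈ range (t.len + 1), a s * HH t P M (t.len - s) ^ 2) :=
        Nat.mul_le_mul_left _ (Nat.mul_le_mul_left _ hnum)
    _ = (n' + 1) * (2 ^ e' * ∑ s ∈ range (t.len + 1), a s * HH t P M (t.len - s) ^ 2) := by ring
    _ ≤ (n' + 1) * ∑ s ∈ range (t.len + 1), AG t.G n' s * HH t P M (t.len - s) ^ 2 :=
        Nat.mul_le_mul_left _ hlow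

/-- the check for the bad cells -/
def chkB (t : BT) (P : List (ℕ × ℕ)) (q E S1 K0 D e : ℕ) : Bool :=
  Nat.ble ((t.sm t.len * stp P t.len) ^ 2 * (bz q E t 0) ^ K0 * q ^ S1)
    (D * 2 ^ e * (2 * q ^ 2) ^ K0 * (q - 1) ^ S1)

theorem HN_le (t : BT) (P M : List (ℕ × ℕ)) (s : ℕ) :
    HN t.G (phi P M) t.len s ≤ t.sm t.len * stp P t.len := by
  unfold HN
  have h1 : ∀ i ∈ range (t.len - s), t.G (i + 1) * phi P M (t.len - s - 1 - i) ≤
      t.val i * stp P t.len := by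
    intro i _
    have h2 : t.G (i + 1) = t.val i := by simp [BT.G]
    have h3 := (HPL_proof t P M (t.len - s - 1 - i) 0 t.len (Nat.zero_le _) (by omega)).2
    rw [h2]
    exact Nat.mul_le_mul_left _ (h3.trans (Nat.sub_le _ _))
  refine (Finset.sum_le_sum h1).trans ?_
  rw [← Finset.sum_mul, (SMV_proof t t.len).1]
  apply Nat.mul_le_mul_right
  exact Finset.sum_le_sum_of_subset (Finset.range_subset_range.2 (by omega))

theorem bad_chkB (t : BT) (P M : List (ℕ × ℕ)) (q E S1 K0 D e : ℕ) (hq : 2 ≤ q) (hE : E ≤ q)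
    (h : chkB t P q E S1 K0 D e = true) :
    ∑ c ∈ (Fintype.piFinset (fun _ : Fin K0 => range t.len)).filter (fun c => smc E c < S1),
      (∏ j, ((t.G (c j + 1) : ℕ) : ℝ) ^ 2) * (HN t.G (phi P M) t.len (∑ j, (c j + 1)) : ℝ) ^ 2 ≤
    (D : ℝ) * 2 ^ e := by
  have hq0 : (0 : ℝ) < q := by
    have : 0 < q := by omega
    exact_mod_cast this
  have hq2 : (2 : ℝ) ≤ q := by exact_mod_cast hq
  have hz0 : (0 : ℝ) < 1 - 1 / q := by
    have : (1 : ℝ) / q ≤ 1 / 2 := one_div_le_one_div_of_le (by norm_num) hq2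
    linarith
  have hz1 : (1 : ℝ) - 1 / q ≤ 1 := by
    have : (0 : ℝ) ≤ 1 / q := by positivity
    linarith
  have hb := bz_bound q E (by omega) hE t 0
  have h1 := bad_bound t.G (phi P M) K0 t.len E S1 (1 - 1 / q) hz0 hz1 (t.sm t.len * stp P t.len)
    (HN_le t P M) ((bz q E t 0 : ℝ) / (2 * q ^ 2)) (by
      refine le_trans (le_of_eq ?_) hb
      refine Finset.sum_congr rfl fun i _ => ?_
      have h2 : t.G (i + 1) = t.val i := by simp [BT.G]
      rw [h2, zero_add])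
  refine h1.trans ?_
  have h2 := Nat.le_of_ble_eq_true h
  have h3 : (((t.sm t.len * stp P t.len) ^ 2 * (bz q E t 0) ^ K0 * q ^ S1 : ℕ) : ℝ) ≤
      ((D * 2 ^ e * (2 * q ^ 2) ^ K0 * (q - 1) ^ S1 : ℕ) : ℝ) := by exact_mod_cast h2
  have e1 : (1 : ℝ) - 1 / q = ((q - 1 : ℕ) : ℝ) / q := by
    rw [Nat.cast_sub (by omega)]
    field_simp
    push_cast
    ring
  have hq1 : (0 : ℝ) < ((q - 1 : ℕ) : ℝ) := by
    have : 0 < q - 1 := by omega
    exact_mod_cast this
  rw [e1, div_pow, div_pow, div_le_iff₀ (by positivity)]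
  push_cast at h3 ⊢
  have hqS : (0 : ℝ) < (q : ℝ) ^ S1 := by positivity
  have h2q : (0 : ℝ) < (2 * (q : ℝ) ^ 2) ^ K0 := by positivity
  rw [← mul_div_assoc, ← mul_div_assoc, div_le_div_iff₀ h2q hqS]
  calc _ ≤ _ := h3
    _ = _ := by ring

end Pool.Agent.J4H32.HT
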