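import Mathlib
import Pool.Agent.J4H32.HT.Snd

/-! A sharper certificate check: the profile `φ` and an approximation of the inner sum are arbitrary step
functions, given by trees. -/

set_option autoImplicit false

open Finset Filter

namespace Pool.Agent.J4H32.HT

open Pool.Agent.H358R5 Pool.Agent.J4H35.CR

/-- the packed values of a tree -/
def pkv (w : ℕ) : BT → ℕ
  | BT.leaf l v => v * rep w l
  | BT.node a b => pkv w a + (pkv w b) <<< (w * a.len)

/-- the maximum of a tree -/
def vmax : BT → ℕ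
  | BT.leaf _ v => v
  | BT.node a b => bif Nat.ble (vmax a) (vmax b) then vmax b else vmax a

/-- the reversed tree -/
def rev : BT → BT
  | BT.leaf l v => BT.leaf l v
  | BT.node a b => BT.node (rev b) (rev a)

/-- the product of a packed sequence with a tree -/
def scl (w : ℕ) : BT → ℕ → ℕ
  | BT.leaf _ v, X => X * v
  | BT.node a b, X => scl w a (X % (1 <<< (w * a.len))) +
      (scl w b (X >>> (w * a.len))) <<< (w * a.len)

/-- `∑ (a(s) + E) v(s)^2` for a packed sequence `a` -/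
def ws (w E : ℕ) : BT → ℕ → ℕ
  | BT.leaf l v, X => (X % ((1 <<< w) - 1) + E * l) * v ^ 2
  | BT.node a b, X => ws w E a (X % (1 <<< (w * a.len))) + ws w E b (X >>> (w * a.len))

theorem val_node_l (a b : BT) (i : ℕ) (h : i < a.len) : (BT.node a b).val i = a.val i := by
  simp only [BT.val]
  rw [if_pos h]

theorem val_node_r (a b : BT) (i : ℕ) : (BT.node a b).val (a.len + i) = b.val i := by
  simp only [BT.val]
  rw [if_neg (by omega), Nat.add_sub_cancel_left]

theorem pk_congr (w : ℕ) (a b : ℕ → ℕ) (n : ℕ) (h : ∀ i, i < n → a i = b i) : pk w a n = pk w b n := by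
  unfold pk
  refine Finset.sum_congr rfl fun i hi => ?_
  rw [h i (Finset.mem_range.1 hi)]

theorem pkv_eq (w : ℕ) (hw : 0 < w) (t : BT) : pkv w t = pk w t.val t.len := by
  induction t with
  | leaf l v =>
    simp only [pkv, BT.len]
    rw [REP_proof w l hw, Finset.mul_sum]
    unfold pk
    refine Finset.sum_congr rfl fun i hi => ?_
    have : (BT.leaf l v).val i = v := by simp [BT.val, Finset.mem_range.1 hi]
    rw [this]
  | node a b iha ihb =>
    simp only [pkv, BT.len]
    rw [SEGh.pk_append, iha, ihb, Nat.shiftLeft_eq, mul_comm (pk w b.val b.len)]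
    congr 1
    · exact pk_congr w _ _ _ fun i hi => (val_node_l a b i hi).symm
    · congr 1
      exact pk_congr w _ _ _ fun i _ => (val_node_r a b i).symm

theorem val_le (t : BT) : ∀ i, t.val i ≤ vmax t := by
  induction t with
  | leaf l v =>
    intro i
    simp only [BT.val, vmax]
    split_ifs <;> omega
  | node a b iha ihb =>
    intro i
    simp only [BT.val, vmax]
    have h1 := iha i
    have h2 := ihb (i - a.len)
    cases hb : Nat.ble (vmax a) (vmax b) with
    | true =>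
      have h3 := Nat.le_of_ble_eq_true hb
      simp only [cond_true]
      split_ifs <;> omega
    | false =>
      have h3 : ¬ vmax a ≤ vmax b := by
        intro hcon
        rw [Nat.ble_eq_true_of_le hcon] at hb
        exact absurd hb (by decide)
      simp only [cond_false]
      split_ifs <;> omega

theorem rev_len (t : BT) : (rev t).len = t.len := by
  induction t with
  | leaf l v => rfl
  | node a b iha ihb =>
    simp only [rev, BT.len]
    omega

theorem rev_val (t : BT) : ∀ i, i < t.len → (rev t).val i = t.val (t.len - 1 - i) := by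
  induction t with
  | leaf l v =>
    intro i hi
    simp only [BT.len] at hi
    simp only [rev, BT.val, BT.len]
    rw [if_pos hi, if_pos (by omega)]
  | node a b iha ihb =>
    intro i hi
    simp only [BT.len] at hi
    simp only [rev, BT.val, BT.len, rev_len]
    by_cases h : i < b.len
    · rw [if_pos h, ihb i h, if_neg (by omega)]
      congr 1
      omega
    · rw [if_neg h, iha (i - b.len) (by omega), if_pos (by omega)]
      congr 1
      omega

/-- splitting a packed sequence -/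
theorem pk_split (w : ℕ) (a : ℕ → ℕ) (m n : ℕ) (h : ∀ i, i < m → a i < 2 ^ w) :
    pk w a (m + n) % 2 ^ (w * m) = pk w a m ∧
      pk w a (m + n) >>> (w * m) = pk w (fun i => a (m + i)) n := by
  have hpk := SEGh.pk_lt w a m h
  have hpos : 0 < 2 ^ (w * m) := by positivity
  refine ⟨?_, ?_⟩
  · rw [SEGh.pk_append, Nat.add_mul_mod_self_left, Nat.mod_eq_of_lt hpk]
  · rw [Nat.shiftRight_eq_div_pow, SEGh.pk_append, Nat.add_mul_div_left _ _ hpos,
      Nat.div_eq_of_lt hpk, zero_add]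

theorem scl_eq (w : ℕ) (t : BT) : ∀ a : ℕ → ℕ, (∀ i, i < t.len → a i < 2 ^ w) →
    scl w t (pk w a t.len) = pk w (fun i => a i * t.val i) t.len := by
  induction t with
  | leaf l v =>
    intro a _
    simp only [scl, BT.len]
    unfold pk
    rw [Finset.sum_mul]
    refine Finset.sum_congr rfl fun i hi => ?_
    have : (BT.leaf l v).val i = v := by simp [BT.val, Finset.mem_range.1 hi]
    show a i * 2 ^ (w * i) * v = (a i * (BT.leaf l v).val i) * 2 ^ (w * i)
    rw [this]
    ring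
  | node u v ihu ihv =>
    intro a h
    simp only [BT.len] at h
    simp only [scl, BT.len, Nat.one_shiftLeft]
    obtain ⟨e1, e2⟩ := pk_split w a u.len v.len fun i hi => h i (by omega)
    rw [e1, e2, ihu a fun i hi => h i (by omega),
      ihv (fun i => a (u.len + i)) fun i hi => h (u.len + i) (by omega), Nat.shiftLeft_eq,
      SEGh.pk_append, mul_comm (pk w _ v.len)]
    congr 1
    · exact pk_congr w _ _ _ fun i hi => by rw [val_node_l u v i hi]
    · congr 1
      exact pk_congr w _ _ _ fun i _ => by rw [val_node_r u v i]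

theorem ws_eq (w E : ℕ) (t : BT) : ∀ a : ℕ → ℕ, ∑ i ∈ range t.len, a i < 2 ^ w - 1 →
    ws w E t (pk w a t.len) = ∑ i ∈ range t.len, (a i + E) * t.val i ^ 2 := by
  induction t with
  | leaf l v =>
    intro a h
    simp only [BT.len] at h
    simp only [ws, BT.len, Nat.one_shiftLeft]
    rw [SEGh.pk_mod w a l h]
    have h1 : ∑ i ∈ range l, a i + E * l = ∑ i ∈ range l, (a i + E) := by
      rw [Finset.sum_add_distrib, Finset.sum_const, Finset.card_range, smul_eq_mul, mul_comm E]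
    rw [h1, Finset.sum_mul]
    refine Finset.sum_congr rfl fun i hi => ?_
    have : (BT.leaf l v).val i = v := by simp [BT.val, Finset.mem_range.1 hi]
    rw [this]
  | node u v ihu ihv =>
    intro a h
    simp only [BT.len] at h
    rw [Finset.sum_range_add] at h
    simp only [ws, BT.len, Nat.one_shiftLeft]
    have hlt : ∀ i, i < u.len → a i < 2 ^ w := by
      intro i hi
      have h1 : a i ≤ ∑ i ∈ range u.len, a i :=
        Finset.single_le_sum (f := a) (fun _ _ => Nat.zero_le _) (Finset.mem_range.2 hi)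
      omega
    obtain ⟨e1, e2⟩ := pk_split w a u.len v.len hlt
    rw [e1, e2, ihu a (by omega), ihv (fun i => a (u.len + i)) (by omega), Finset.sum_range_add]
    congr 1
    · refine Finset.sum_congr rfl fun i hi => ?_
      rw [val_node_l u v i (Finset.mem_range.1 hi)]
    · refine Finset.sum_congr rfl fun i _ => ?_
      rw [val_node_r u v i]

/-- the last slot of a packed sequence -/
theorem pk_last (w : ℕ) (c : ℕ → ℕ) (n : ℕ) (hn : 1 ≤ n) (h : ∀ i, i < n → c i < 2 ^ w) :
    pk w c n >>> (w * (n - 1)) = c (n - 1) := by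
  obtain ⟨k, rfl⟩ : ∃ k, n = k + 1 := ⟨n - 1, by omega⟩
  rw [Nat.add_sub_cancel]
  have h1 : pk w c (k + 1) = pk w c k + 2 ^ (w * k) * c k := by
    unfold pk
    rw [Finset.sum_range_succ, mul_comm (c k)]
  have hpk := SEGh.pk_lt w c k fun i hi => h i (by omega)
  rw [h1, Nat.shiftRight_eq_div_pow, Nat.add_mul_div_left _ _ (by positivity),
    Nat.div_eq_of_lt hpk, zero_add]

/-- a bound for the convolution -/
theorem conv_le (f g : ℕ → ℕ) (n F gm : ℕ) (hF : ∑ i ∈ range n, f i ≤ F) (hg : ∀ i, g i ≤ gm) (k : ℕ)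
    (hk : k < n) : conv f g k ≤ F * gm := by
  unfold conv
  calc ∑ i ∈ range (k + 1), f i * g (k - i) ≤ ∑ i ∈ range (k + 1), f i * gm :=
        Finset.sum_le_sum fun i _ => Nat.mul_le_mul_left _ (hg _)
    _ = (∑ i ∈ range (k + 1), f i) * gm := (Finset.sum_mul _ _ _).symm
    _ ≤ F * gm := by
        apply Nat.mul_le_mul_right
        exact (Finset.sum_le_sum_of_subset (Finset.range_subset_range.2 (by omega))).trans hF

/-- associativity of the convolution at one place -/
theorem conv_assoc' (a b c : ℕ → ℕ) (n : ℕ) : conv (conv a b) c n = conv a (conv b c) n := by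
  unfold conv
  simp only [Finset.sum_mul, Finset.mul_sum]
  rw [Finset.sum_sigma', Finset.sum_sigma']
  refine Finset.sum_bij' (i := fun p _ => (⟨p.2, p.1 - p.2⟩ : (_ : ℕ) × ℕ))
    (j := fun p _ => (⟨p.1 + p.2, p.1⟩ : (_ : ℕ) × ℕ)) ?_ ?_ ?_ ?_ ?_
  · rintro ⟨i, j⟩ h
    simp only [Finset.mem_sigma, Finset.mem_range] at h ⊢
    omega
  · rintro ⟨i, j⟩ h
    simp only [Finset.mem_sigma, Finset.mem_range] at h ⊢
    omega
  · rintro ⟨i, j⟩ h
    simp only [Finset.mem_sigma, Finset.mem_range] at h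
    have : j + (i - j) = i := by omega
    simp [this]
  · rintro ⟨i, j⟩ h
    simp only [Finset.mem_sigma, Finset.mem_range] at h
    have : i + j - i = j := by omega
    simp [this]
  · rintro ⟨i, j⟩ h
    simp only [Finset.mem_sigma, Finset.mem_range] at h
    have e1 : n - j - (i - j) = n - i := by omega
    simp only [e1]
    ring

/-- the final check with trees `tφ` for the profile and `th` for an approximation of the inner sum -/
def finX (w : ℕ) (t tφ th : BT) (u t1 tK m K N1 D X1 S1 n X S E : ℕ) : Bool :=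
  (Nat.beq (n + 1) K && Nat.blt (S + 1) (1 <<< w)) &&
  ((Nat.blt (S * S1 / 2 ^ tK + 1) (1 <<< w) && Nat.blt (S * S1) (1 <<< w)) &&
  ((Nat.ble tK w && Nat.beq tφ.len (t.len + 1)) &&
  ((Nat.beq th.len t.len && Nat.ble t1 w) &&
  ((Nat.blt (S * vmax th * vmax t) (1 <<< w) && Nat.blt (vmax tφ) (1 <<< w)) &&
  (Nat.blt (t.len * (S * vmax th * vmax t / 2 ^ t1) * vmax tφ) (1 <<< w) &&
  Nat.blt (4 * m * N1 *
        (ws w ((E * S1) / 2 ^ tK + 2) (rev tφ) (mulS w (t.len + 1) tK X X1) * 2 ^ tK) + K * D +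
        K * (2 ^ (2 * u) * ws w 0 th (X % (1 <<< (w * t.len)))))
      (K * (2 ^ (1 + u + t1) *
        (mulS w t.len 0 (mulS w t.len t1 (scl w th (X % (1 <<< (w * t.len)))) (pkv w t))
          (pkv w tφ % (1 <<< (w * t.len))) >>> (w * (t.len - 1))))))))))

/-- the certificate check -/
def chkX (w : ℕ) (t tφ th : BT) (u t1 : ℕ) (L : List (Bool × ℕ)) (tK m K N1 D : ℕ) : Bool :=
  go w (t.len + 1) ((t.pkt w) <<< w) (t.sm2 t.len)
    (finX w t tφ th u t1 tK m K N1 D ((t.pkt w) <<< w) (t.sm2 t.len)) L 1 ((t.pkt w) <<< w) (t.sm2 t.len) 0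

/-- the inner sum as a convolution -/
theorem HN_conv (t tφ : BT) (s : ℕ) (hs : s < t.len) :
    HN t.G tφ.val t.len s = conv t.val tφ.val (t.len - 1 - s) := by
  unfold HN conv
  have e1 : t.len - s = t.len - 1 - s + 1 := by omega
  rw [e1]
  refine Finset.sum_congr rfl fun i _ => ?_
  have h2 : t.G (i + 1) = t.val i := by simp [BT.G]
  rw [h2, Nat.add_sub_cancel]

theorem sound_chkX (w : ℕ) (t tφ th : BT) (u t1 : ℕ) (L : List (Bool × ℕ))
    (tK m K0 N1 D Rin : ℕ) (hw : 0 < w) (hlen : 1 ≤ t.len) (hRin : ∀ s, Rin < s → th.val s = 0)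
    (hchk : chkX w t tφ th u t1 L tK m (K0 + 1) N1 D = true) :
    4 * m * N1 * ∑ s ∈ range (t.len + 1), AG t.G (K0 + 1) s * tφ.val (t.len - s) ^ 2 +
      (K0 + 1) * (D * 2 ^ etot L 0) <
    (K0 + 1) * ∑ s ∈ range (t.len + 1), AG t.G K0 s *
      (if s ≤ Rin then HN t.G tφ.val t.len s ^ 2 else 0) := by
  have h1 := INVMUL_proof (MULS_proof REP_proof) CONVA_proof
  have h3 := INIT_proof REP_proof SMV_proof
  unfold chkX at hchk
  have hI0 := h3 t w hw
  obtain ⟨n', X', S', E', hf, hI⟩ := SOUND_goE h1 t.G w (t.len + 1) _ _ _ hw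
    hI0 L 1 _ _ 0 0 hI0 hchk
  simp only [finX, Bool.and_eq_true] at hf
  obtain ⟨⟨hf1, hf2⟩, ⟨hf3, hf4⟩, ⟨hf5, hf6⟩, ⟨hf7, hf8⟩, ⟨hf9, hf10⟩, hf11, hf12⟩ := hf
  have hn : n' = K0 := by
    have := Nat.eq_of_beq_eq_true hf1
    omega
  have hS : S' + 1 < 2 ^ w := by
    have := Nat.blt_eq.mp hf2
    rwa [Nat.one_shiftLeft] at this
  have hSK : S' * t.sm2 t.len / 2 ^ tK + 1 < 2 ^ w := by
    have := Nat.blt_eq.mp hf3
    rwa [Nat.one_shiftLeft] at this
  have hSS : S' * t.sm2 t.len < 2 ^ w := by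
    have := Nat.blt_eq.mp hf4
    rwa [Nat.one_shiftLeft] at this
  have htK : tK ≤ w := Nat.le_of_ble_eq_true hf5
  have hφl : tφ.len = t.len + 1 := Nat.eq_of_beq_eq_true hf6
  have hhl : th.len = t.len := Nat.eq_of_beq_eq_true hf7
  have ht1 : t1 ≤ w := Nat.le_of_ble_eq_true hf8
  have hc1 : S' * vmax th * vmax t < 2 ^ w := by
    have := Nat.blt_eq.mp hf9
    rwa [Nat.one_shiftLeft] at this
  have hc0 : vmax tφ < 2 ^ w := by
    have := Nat.blt_eq.mp hf10
    rwa [Nat.one_shiftLeft] at this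
  have hc2 : t.len * (S' * vmax th * vmax t / 2 ^ t1) * vmax tφ < 2 ^ w := by
    have := Nat.blt_eq.mp hf11
    rwa [Nat.one_shiftLeft] at this
  have hlt := Nat.blt_eq.mp hf12
  subst hn
  generalize etot L 0 = e' at hI ⊢
  -- one more multiplication
  have hIK := h1 t.G w (t.len + 1) n' X' S' E' e' 1 _ _ 0 0 tK hw htK hI hI0 hSS
  have e2 : E' * t.sm2 t.len + 0 * S' + E' * 0 * (t.len + 1) = E' * t.sm2 t.len := by ring
  rw [e2] at hIK
  obtain ⟨a, hX, haS, hab⟩ := hI
  obtain ⟨b, hXK, hbS, hbb⟩ := hIK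
  set XK := mulS w (t.len + 1) tK X' ((t.pkt w) <<< w) with hXKd
  set EK := E' * t.sm2 t.len / 2 ^ tK + 2 with hEKd
  -- the denominator
  have hden : ws w EK (rev tφ) XK = ∑ s ∈ range (t.len + 1), (b s + EK) * tφ.val (t.len - s) ^ 2 := by
    have h5 := ws_eq w EK (rev tφ) b (by rw [rev_len, hφl]; omega)
    rw [rev_len, hφl] at h5
    rw [hXK, h5]
    refine Finset.sum_congr rfl fun s hs => ?_
    have hs' := Finset.mem_range.1 hs
    rw [rev_val tφ s (by omega), hφl, Nat.add_sub_cancel]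
  have hup : ∑ s ∈ range (t.len + 1), AG t.G (n' + 1) s * tφ.val (t.len - s) ^ 2 ≤
      2 ^ (e' + tK) * ws w EK (rev tφ) XK := by
    rw [hden, Finset.mul_sum]
    apply Finset.sum_le_sum
    intro s hs
    have h5 := (hbb s (Finset.mem_range.mp hs)).2
    rw [add_zero] at h5
    calc AG t.G (n' + 1) s * tφ.val (t.len - s) ^ 2
        ≤ ((b s + EK) * 2 ^ (e' + tK)) * tφ.val (t.len - s) ^ 2 :=
          Nat.mul_le_mul_right _ h5
      _ = 2 ^ (e' + tK) * ((b s + EK) * tφ.val (t.len - s) ^ 2) := by ring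
  -- the first `N` slots
  have haN : ∑ i ∈ range t.len, a i ≤ S' :=
    (Finset.sum_le_sum_of_subset (Finset.range_subset_range.2 (by omega))).trans haS
  have halt : ∀ i, i < t.len → a i < 2 ^ w := by
    intro i hi
    have h5 : a i ≤ ∑ i ∈ range t.len, a i :=
      Finset.single_le_sum (f := a) (fun _ _ => Nat.zero_le _) (Finset.mem_range.2 hi)
    omega
  have hXN : X' % (1 <<< (w * t.len)) = pk w a t.len := by
    rw [hX, Nat.one_shiftLeft]
    exact (pk_split w a t.len 1 halt).1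
  rw [hXN] at hlt
  have hws : ws w 0 th (pk w a t.len) = ∑ i ∈ range t.len, a i * th.val i ^ 2 := by
    have h5 := ws_eq w 0 th a (by rw [hhl]; omega)
    rw [hhl] at h5
    rw [h5]
    rfl
  have hscl : scl w th (pk w a t.len) = pk w (fun i => a i * th.val i) t.len := by
    have h5 := scl_eq w th a (by rw [hhl]; exact halt)
    rw [hhl] at h5
    exact h5
  have hpt : pkv w t = pk w t.val t.len := pkv_eq w hw t
  have hpφ : pkv w tφ % (1 <<< (w * t.len)) = pk w tφ.val t.len := by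
    rw [pkv_eq w hw tφ, hφl, Nat.one_shiftLeft]
    exact (pk_split w tφ.val t.len 1 fun i _ => (val_le tφ i).trans_lt hc0).1
  -- the first convolution
  have hF1 : ∑ i ∈ range t.len, a i * th.val i ≤ S' * vmax th :=
    calc ∑ i ∈ range t.len, a i * th.val i ≤ ∑ i ∈ range t.len, a i * vmax th :=
          Finset.sum_le_sum fun i _ => Nat.mul_le_mul_left _ (val_le th i)
      _ = (∑ i ∈ range t.len, a i) * vmax th := (Finset.sum_mul _ _ _).symm
      _ ≤ S' * vmax th := Nat.mul_le_mul_right _ haN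
  have hcv1 : ∀ k, k < t.len → conv (fun i => a i * th.val i) t.val k ≤ S' * vmax th * vmax t :=
    fun k hk => conv_le _ _ t.len _ _ hF1 (val_le t) k hk
  have hm1 : mulS w t.len t1 (scl w th (pk w a t.len)) (pkv w t) =
      pk w (fun k => conv (fun i => a i * th.val i) t.val k / 2 ^ t1) t.len := by
    rw [hscl, hpt]
    exact MULS_proof REP_proof w t.len t1 _ _ hw ht1 fun k hk => (hcv1 k hk).trans_lt hc1
  -- the second convolution
  have hF2 : ∑ i ∈ range t.len, conv (fun i => a i * th.val i) t.val i / 2 ^ t1 ≤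
      t.len * (S' * vmax th * vmax t / 2 ^ t1) := by
    calc ∑ i ∈ range t.len, conv (fun i => a i * th.val i) t.val i / 2 ^ t1 ≤
        ∑ i ∈ range t.len, S' * vmax th * vmax t / 2 ^ t1 :=
          Finset.sum_le_sum fun i hi => Nat.div_le_div_right (hcv1 i (Finset.mem_range.1 hi))
      _ = _ := by rw [Finset.sum_const, Finset.card_range, smul_eq_mul]
  have hcv2 : ∀ k, k < t.len → conv (fun k => conv (fun i => a i * th.val i) t.val k / 2 ^ t1)
      tφ.val k ≤ t.len * (S' * vmax th * vmax t / 2 ^ t1) * vmax tφ :=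
    fun k hk => conv_le _ _ t.len _ _ hF2 (val_le tφ) k hk
  have hm2 : mulS w t.len 0 (pk w (fun k => conv (fun i => a i * th.val i) t.val k / 2 ^ t1) t.len)
      (pk w tφ.val t.len) = pk w (fun k => conv (fun k => conv (fun i => a i * th.val i) t.val k / 2 ^ t1)
      tφ.val k / 2 ^ 0) t.len :=
    MULS_proof REP_proof w t.len 0 _ _ hw (Nat.zero_le _) fun k hk => (hcv2 k hk).trans_lt hc2
  rw [hm1, hpφ, hm2, pk_last w _ t.len hlen fun i hi => by
    rw [pow_zero, Nat.div_one]
    exact (hcv2 i hi).trans_lt hc2] at hlt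
  simp only [pow_zero, Nat.div_one] at hlt
  -- the main lower bound
  have hz : 2 ^ t1 * conv (fun k => conv (fun i => a i * th.val i) t.val k / 2 ^ t1) tφ.val (t.len - 1) ≤
      ∑ s ∈ range t.len, a s * th.val s * HN t.G tφ.val t.len s := by
    calc 2 ^ t1 * conv (fun k => conv (fun i => a i * th.val i) t.val k / 2 ^ t1) tφ.val (t.len - 1)
        ≤ conv (conv (fun i => a i * th.val i) t.val) tφ.val (t.len - 1) := by
          unfold conv
          rw [Finset.mul_sum]
          refine Finset.sum_le_sum fun i _ => ?_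
          rw [← mul_assoc]
          exact Nat.mul_le_mul_right _ (Nat.mul_div_le _ _)
      _ = conv (fun i => a i * th.val i) (conv t.val tφ.val) (t.len - 1) := conv_assoc' _ _ _ _
      _ = ∑ s ∈ range t.len, a s * th.val s * HN t.G tφ.val t.len s := by
          have e3 : t.len - 1 + 1 = t.len := by omega
          show ∑ i ∈ range (t.len - 1 + 1), a i * th.val i * conv t.val tφ.val (t.len - 1 - i) = _
          rw [e3]
          refine Finset.sum_congr rfl fun s hs => ?_
          rw [HN_conv t tφ s (Finset.mem_range.1 hs)]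
  have hsq : 2 ^ (1 + u) * ∑ s ∈ range t.len, a s * th.val s * HN t.G tφ.val t.len s ≤
      2 ^ (2 * u) * (∑ i ∈ range t.len, a i * th.val i ^ 2) +
        ∑ s ∈ range t.len, a s * (if s ≤ Rin then HN t.G tφ.val t.len s ^ 2 else 0) := by
    rw [Finset.mul_sum, Finset.mul_sum, ← Finset.sum_add_distrib]
    refine Finset.sum_le_sum fun s _ => ?_
    by_cases hs : s ≤ Rin
    · rw [if_pos hs]
      have h5 := two_mul_le_add_sq (2 ^ u * th.val s) (HN t.G tφ.val t.len s)
      calc 2 ^ (1 + u) * (a s * th.val s * HN t.G tφ.val t.len s)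
          = a s * (2 * (2 ^ u * th.val s) * HN t.G tφ.val t.len s) := by rw [pow_add]; ring
        _ ≤ a s * ((2 ^ u * th.val s) ^ 2 + HN t.G tφ.val t.len s ^ 2) := Nat.mul_le_mul_left _ h5
        _ = _ := by rw [two_mul u, pow_add]; ring
    · rw [hRin s (not_le.1 hs)]
      simp
  have hlow : 2 ^ e' * ∑ s ∈ range t.len, a s * (if s ≤ Rin then HN t.G tφ.val t.len s ^ 2 else 0) ≤
      ∑ s ∈ range (t.len + 1), AG t.G n' s * (if s ≤ Rin then HN t.G tφ.val t.len s ^ 2 else 0) := by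
    rw [Finset.mul_sum]
    calc ∑ s ∈ range t.len, 2 ^ e' * (a s * (if s ≤ Rin then HN t.G tφ.val t.len s ^ 2 else 0))
        ≤ ∑ s ∈ range t.len, AG t.G n' s * (if s ≤ Rin then HN t.G tφ.val t.len s ^ 2 else 0) := by
          apply Finset.sum_le_sum
          intro s hs
          have h5 := (hab s (by have := Finset.mem_range.mp hs; omega)).1
          calc 2 ^ e' * (a s * (if s ≤ Rin then HN t.G tφ.val t.len s ^ 2 else 0))
              = (a s * 2 ^ e') * (if s ≤ Rin then HN t.G tφ.val t.len s ^ 2 else 0) := by ring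
            _ ≤ AG t.G n' s * (if s ≤ Rin then HN t.G tφ.val t.len s ^ 2 else 0) :=
                Nat.mul_le_mul_right _ h5
      _ ≤ _ := Finset.sum_le_sum_of_subset (Finset.range_subset_range.2 (by omega))
  rw [hws] at hlt
  have hpos : 0 < 2 ^ e' := by positivity
  have hkey : 4 * m * N1 * (ws w EK (rev tφ) XK * 2 ^ tK) + (n' + 1) * D <
      (n' + 1) * ∑ s ∈ range t.len, a s * (if s ≤ Rin then HN t.G tφ.val t.len s ^ 2 else 0) := by
    have h5 : (n' + 1) * (2 ^ (1 + u + t1) *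
        conv (fun k => conv (fun i => a i * th.val i) t.val k / 2 ^ t1) tφ.val (t.len - 1)) ≤
        (n' + 1) * (2 ^ (2 * u) * (∑ i ∈ range t.len, a i * th.val i ^ 2)) +
          (n' + 1) * ∑ s ∈ range t.len, a s * (if s ≤ Rin then HN t.G tφ.val t.len s ^ 2 else 0) := by
      rw [← mul_add]
      apply Nat.mul_le_mul_left
      refine le_trans ?_ hsq
      calc 2 ^ (1 + u + t1) *
          conv (fun k => conv (fun i => a i * th.val i) t.val k / 2 ^ t1) tφ.val (t.len - 1)
          = 2 ^ (1 + u) * (2 ^ t1 *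
            conv (fun k => conv (fun i => a i * th.val i) t.val k / 2 ^ t1) tφ.val (t.len - 1)) := by
            rw [pow_add]; ring
        _ ≤ _ := Nat.mul_le_mul_left _ hz
    omega
  calc 4 * m * N1 *
        ∑ s ∈ range (t.len + 1), AG t.G (n' + 1) s * tφ.val (t.len - s) ^ 2 + (n' + 1) * (D * 2 ^ e')
      ≤ 4 * m * N1 * (2 ^ (e' + tK) * ws w EK (rev tφ) XK) + (n' + 1) * (D * 2 ^ e') :=
        Nat.add_le_add_right (Nat.mul_le_mul_left _ hup) _
    _ = 2 ^ e' * (4 * m * N1 * (ws w EK (rev tφ) XK * 2 ^ tK) + (n' + 1) * D) := by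
        rw [pow_add]; ring
    _ < 2 ^ e' * ((n' + 1) * ∑ s ∈ range t.len, a s *
          (if s ≤ Rin then HN t.G tφ.val t.len s ^ 2 else 0)) :=
        Nat.mul_lt_mul_of_pos_left hkey hpos
    _ = (n' + 1) * (2 ^ e' * ∑ s ∈ range t.len, a s *
          (if s ≤ Rin then HN t.G tφ.val t.len s ^ 2 else 0)) := by ring
    _ ≤ (n' + 1) * ∑ s ∈ range (t.len + 1), AG t.G n' s *
          (if s ≤ Rin then HN t.G tφ.val t.len s ^ 2 else 0) :=
        Nat.mul_le_mul_left _ hlow

/-- the check for the bad cells -/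
def chkBX (t tφ : BT) (q E S1 K0 D e : ℕ) : Bool :=
  Nat.ble ((t.sm t.len * vmax tφ) ^ 2 * (bz q E t 0) ^ K0 * q ^ S1)
    (D * 2 ^ e * (2 * q ^ 2) ^ K0 * (q - 1) ^ S1)

theorem HN_leX (t tφ : BT) (s : ℕ) : HN t.G tφ.val t.len s ≤ t.sm t.len * vmax tφ := by
  unfold HN
  have h1 : ∀ i ∈ range (t.len - s), t.G (i + 1) * tφ.val (t.len - s - 1 - i) ≤
      t.val i * vmax tφ := by
    intro i _
    have h2 : t.G (i + 1) = t.val i := by simp [BT.G]
    rw [h2]
    exact Nat.mul_le_mul_left _ (val_le tφ _)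
  refine (Finset.sum_le_sum h1).trans ?_
  rw [← Finset.sum_mul, (SMV_proof t t.len).1]
  apply Nat.mul_le_mul_right
  exact Finset.sum_le_sum_of_subset (Finset.range_subset_range.2 (by omega))

theorem bad_chkBX (t tφ : BT) (q E S1 K0 D e : ℕ) (hq : 2 ≤ q) (hE : E ≤ q)
    (h : chkBX t tφ q E S1 K0 D e = true) :
    ∑ c ∈ (Fintype.piFinset (fun _ : Fin K0 => range t.len)).filter (fun c => smc E c < S1),
      (∏ j, ((t.G (c j + 1) : ℕ) : ℝ) ^ 2) * (HN t.G tφ.val t.len (∑ j, (c j + 1)) : ℝ) ^ 2 ≤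
    (D : ℝ) * 2 ^ e := by
  have hq0 : (0 : ℝ) < q := by
    have : 0 < q := by omega
    exact_mod_cast this
  have hq2 : (2 : ℝ) ≤ q := by exact_mod_cast hq
  have hz0 : (0 : ℝ) < 1 - 1 / q := by
    have : (1 : ℝ) / q ≤ 1 / 2 := one_div_le_one_div_of_le (by norm_num) hq2
    linarith
  have hz1 : (1 : ℝ) - 1 / q ≤ 1 := by
    have : (0 : ℝ) ≤ 1 / q := by positivity
    linarith
  have hb := bz_bound q E (by omega) hE t 0
  have h1 := bad_bound t.G tφ.val K0 t.len E S1 (1 - 1 / q) hz0 hz1 (t.sm t.len * vmax tφ)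
    (HN_leX t tφ) ((bz q E t 0 : ℝ) / (2 * q ^ 2)) (by
      refine le_trans (le_of_eq ?_) hb
      refine Finset.sum_congr rfl fun i _ => ?_
      have h2 : t.G (i + 1) = t.val i := by simp [BT.G]
      rw [h2, zero_add])
  refine h1.trans ?_
  have h2 := Nat.le_of_ble_eq_true h
  have h3 : (((t.sm t.len * vmax tφ) ^ 2 * (bz q E t 0) ^ K0 * q ^ S1 : ℕ) : ℝ) ≤
      ((D * 2 ^ e * (2 * q ^ 2) ^ K0 * (q - 1) ^ S1 : ℕ) : ℝ) := by exact_mod_cast h2
  have e1 : (1 : ℝ) - 1 / q = ((q - 1 : ℕ) : ℝ) / q := by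
    rw [Nat.cast_sub (by omega)]
    field_simp
    push_cast
    ring
  have hq1 : (0 : ℝ) < ((q - 1 : ℕ) : ℝ) := by
    have : 0 < q - 1 := by omega
    exact_mod_cast this
  rw [e1, div_pow, div_pow, div_le_iff₀ (by positivity)]
  push_cast at h3 ⊢
  have hqS : (0 : ℝ) < (q : ℝ) ^ S1 := by positivity
  have h2q : (0 : ℝ) < (2 * (q : ℝ) ^ 2) ^ K0 := by positivity
  rw [← mul_div_assoc, ← mul_div_assoc, div_le_div_iff₀ h2q hqS]
  calc _ ≤ _ := h3
    _ = _ := by ring

/-- everything together -/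
theorem chyp_of_chkX (hP2 : S_P23) (w : ℕ) (t0 : BT) (l : ℕ) (tφ th0 : BT) (lh u t1 : ℕ)
    (L : List (Bool × ℕ)) (tK m K0 K N1 D D' q E S0 q' E' S0' : ℕ) (hK : K0 + 1 = K) (hw : 0 < w)
    (hN1 : 0 < N1) (hq : 2 ≤ q) (hE : E ≤ q) (hq' : 2 ≤ q') (hE' : E' ≤ q')
    (hlen : 2 ≤ (BT.node t0 (BT.leaf l 0)).len) (hth : 1 ≤ th0.len)
    (hNN : (BT.node t0 (BT.leaf l 0)).len ≤ 2 * N1)
    (g1 : 10000 * ((th0.len - 1) + ((BT.node t0 (BT.leaf l 0)).len - 1)) ≤ 20713 * N1)
    (g2 : 100 * t0.len ≤ 45 * N1) (g3 : 10000 * E ≤ N1) (g4 : 44 * N1 ≤ 1000 * S0)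
    (g3' : 500 * E' ≤ N1) (g4' : 262 * N1 ≤ 1000 * S0')
    (hB : chkBX (BT.node t0 (BT.leaf l 0)) tφ q E (S0 + E) K0 D (etot L 0) = true)
    (hB' : chkBX (BT.node t0 (BT.leaf l 0)) tφ q' E' (S0' + E') K0 D' (etot L 0) = true)
    (h : chkX w (BT.node t0 (BT.leaf l 0)) tφ (BT.node th0 (BT.leaf lh 0)) u t1 L tK m K N1 (D + D') = true) :
    CHyp m K := by
  subst hK
  have h1 := sound_chkX w _ tφ (BT.node th0 (BT.leaf lh 0)) u t1 L tK m K0 N1 (D + D') (th0.len - 1) hw
    (by omega) (by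
    intro s hs
    simp only [BT.val]
    rw [if_neg (by omega)]
    split_ifs <;> rfl) h
  have h2 := bad_chkBX _ tφ q E (S0 + E) K0 D (etot L 0) hq hE hB
  have h2' := bad_chkBX _ tφ q' E' (S0' + E') K0 D' (etot L 0) hq' hE' hB'
  refine gcrit3 hP2 m K0 _ N1 t0.len E S0 E' S0' (th0.len - 1) (BT.node t0 (BT.leaf l 0)).G tφ.val hlen
    hN1 hNN ?_ g1 g2 g3 g4 g3' g4' (D * 2 ^ etot L 0) (D' * 2 ^ etot L 0) h2 h2' ?_
  · intro c hc
    show (BT.node t0 (BT.leaf l 0)).val (c - 1) = 0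
    simp only [BT.val]
    rw [if_neg (by omega)]
    split_ifs <;> rfl
  · have h3 : ((4 * m * N1 * ∑ s ∈ range ((BT.node t0 (BT.leaf l 0)).len + 1),
        AG (BT.node t0 (BT.leaf l 0)).G (K0 + 1) s * tφ.val ((BT.node t0 (BT.leaf l 0)).len - s) ^ 2 +
        (K0 + 1) * ((D + D') * 2 ^ etot L 0) : ℕ) : ℝ) <
      (((K0 + 1) * ∑ s ∈ range ((BT.node t0 (BT.leaf l 0)).len + 1),
        AG (BT.node t0 (BT.leaf l 0)).G K0 s * (if s ≤ th0.len - 1 then
          HN (BT.node t0 (BT.leaf l 0)).G tφ.val (BT.node t0 (BT.leaf l 0)).len s ^ 2 else 0) : ℕ) : ℝ) := by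
      exact_mod_cast h1
    push_cast at h3
    refine lt_of_le_of_lt (le_of_eq ?_) h3
    ring

end Pool.Agent.J4H32.HT
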